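import Pool.Agent.H97.Sun.Target

namespace Pool.Agent.H97.Sun

def cert0 : List Entry := [
  ⟨-170640, [-1, -2, 2], .dist [1]⟩,
  ⟨44280, [-1, -3, 1], .dist [1]⟩,
  ⟨-264600, [-1, 3, 1], .dist [1]⟩,
  ⟨271512, [-2, -3], .dist [1]⟩,
  ⟨-69120, [-2, 2, -1], .dist [1]⟩,
  ⟨432000, [-4, -1], .dist [1]⟩,
  ⟨-1514160, [-4, 1], .dist [1]⟩,
  ⟨1453680, [1, 4], .dist [1]⟩,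
  ⟨370872, [2, 1, -2], .dist [1]⟩,
  ⟨899856, [3, -2], .dist [1]⟩,
  ⟨-124200, [3, 1, -1], .dist [1]⟩,
  ⟨-8640, [-2, -1, 1], .dist [2]⟩,
  ⟨19440, [-2, 2], .dist [2]⟩,
  ⟨20736, [-3], .dist [2]⟩,
  ⟨25920, [2, 1, -1], .dist [2]⟩,
  ⟨572832, [-2, 1], .dist [3]⟩,
  ⟨-204012, [-3], .dist [3]⟩,
  ⟨-52920, [2, -1], .dist [3]⟩,
  ⟨7560, [], .dist [3]⟩,
  ⟨5184, [], .dist [4, 1, 1]⟩,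
  ⟨8640, [-1, 1], .dist [4]⟩,
  ⟨32950, [], .dist [6]⟩,
  ⟨51840, [], .sh [-1, -1, -1, 0, 1] []⟩,
  ⟨220320, [], .sh [-1, -1, 0, 0, -1] []⟩,
  ⟨-25920, [], .sh [-1, -1, 0, 0, 1] []⟩,
  ⟨184320, [], .sh [-1, -1, 0, 1, -1] []⟩,
  ⟨-884160, [], .sh [-1, -1, 0, 1, 1] []⟩,
  ⟨105840, [], .sh [-1, 0, -1, -1] [-1]⟩,
  ⟨-25560, [], .sh [-1, 0, -1, 0, -1] [-1]⟩,
  ⟨220104, [], .sh [-1, 0, -1, 0, 1, -1] []⟩,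
  ⟨51516, [], .sh [-1, 0, -1, 0, 1] []⟩,
  ⟨116640, [], .sh [-1, 0, -1, 1] [-1]⟩,
  ⟨103680, [], .sh [-1, 0, -1] [-1]⟩,
  ⟨47232, [], .sh [-1, 0, 0, -1, -1, 1] []⟩,
  ⟨153000, [], .sh [-1, 0, 0, -1, -1] [-1]⟩,
  ⟨450792, [], .sh [-1, 0, 0, -1, 1, -1] []⟩,
  ⟨13248, [], .sh [-1, 0, 0, -1, 1, 1] []⟩,
  ⟨45072, [], .sh [-1, 0, 0, -1, 1] [-1]⟩,
  ⟨-14040, [1], .sh [-1, 0, 0, -1, 1] []⟩,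
  ⟨77760, [], .sh [-1, 0, 0, -1, 1] []⟩,
  ⟨-270972, [], .sh [-1, 0, 0, 0, -1] [-1]⟩,
  ⟨-194400, [], .sh [-1, 0, 0, 0, -1] []⟩,
  ⟨-150660, [], .sh [-1, 0, 0, 0, 1, -1] []⟩,
  ⟨90720, [], .sh [-1, 0, 0, 0, 1] []⟩,
  ⟨207360, [], .sh [-1, 0, 0, 1, -1, -1] []⟩,
  ⟨-99144, [], .sh [-1, 0, 0, 1, -1, 1] []⟩,
  ⟨360576, [], .sh [-1, 0, 0, 1, 1, -1] []⟩,
  ⟨279720, [], .sh [-1, 0, 0, 1, 1, 1] []⟩,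
  ⟨21600, [], .sh [-1, 0, 1] [-1, 0, 1]⟩,
  ⟨25920, [], .sh [-1, 1, -1, 0, 1] []⟩]

def cert1 : List Entry := [
  ⟨207360, [], .sh [-1, 1] [-1, -1]⟩,
  ⟨259200, [], .sh [-1, 1] [-1, 0, 1]⟩,
  ⟨-360576, [], .sh [-1] [-1, -1, 0, 0, 1]⟩,
  ⟨-207360, [], .sh [-1] [-1, -1, 1]⟩,
  ⟨17280, [], .sh [-1] [-1, 0, -1, -1]⟩,
  ⟨-51840, [], .sh [-1] [-1, 0, -1]⟩,
  ⟨-129600, [], .sh [-1] [-1, 0, 0, -1]⟩,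
  ⟨116640, [], .sh [-1] [-1, 0, 1, -1]⟩,
  ⟨-49392, [], .sh [-1] [-1, 0, 1, 0, -1]⟩,
  ⟨-48960, [], .sh [-1] [-1, 0, 1, 1]⟩,
  ⟨38880, [], .sh [-1] [-1, 1, 0, -1]⟩,
  ⟨-51840, [-1], .sh [-1] [-1, 1]⟩,
  ⟨77760, [-2], .sh [-1] [-1, 1]⟩,
  ⟨16560, [], .sh [-1] [0, -1, -1, 0, -1]⟩,
  ⟨-77760, [], .sh [-1] [0, -1, -1, 1]⟩,
  ⟨-42912, [], .sh [-1] [0, -1, 0, -1, 1]⟩,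
  ⟨103680, [], .sh [-1] [0, -1, 0, -1]⟩,
  ⟨143928, [], .sh [-1] [0, -1, 0, 1, -1]⟩,
  ⟨38880, [], .sh [-1] [0, -1, 1, -1]⟩,
  ⟨-2160, [], .sh [-1] [0, -1, 1, 0, -1]⟩,
  ⟨-51840, [], .sh [-1] [0, -1, 1]⟩,
  ⟨31320, [], .sh [-1] [0, 0, -1, -1, -1]⟩,
  ⟨414720, [], .sh [-1] [0, 0, -1, -1]⟩,
  ⟨407052, [], .sh [-1] [0, 0, -1, 0, -1]⟩,
  ⟨-307656, [], .sh [-1] [0, 0, -1, 1, -1]⟩,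
  ⟨1223424, [], .sh [-1] [0, 0, 0, -1, -1]⟩,
  ⟨-466992, [], .sh [-1] [0, 0, 0, -1, 1]⟩,
  ⟨142560, [], .sh [-1] [0, 0, 0, -1]⟩,
  ⟨-165672, [], .sh [-1] [0, 0, 0, 1, -1]⟩,
  ⟨165456, [], .sh [-1] [0, 0, 1, 1, -1]⟩,
  ⟨129600, [], .sh [-1] [0, 1, -1, -1]⟩,
  ⟨113040, [], .sh [-1] [0, 1, -1, 0, -1]⟩,
  ⟨247392, [], .sh [-1] [0, 1, 0, -1, 1]⟩,
  ⟨-12960, [], .sh [-1] [0, 1, 0, -1]⟩,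
  ⟨-146880, [], .sh [-1] [0, 1, 0, 0, -1]⟩,
  ⟨103680, [], .sh [-1] [0, 1, 1]⟩,
  ⟨264240, [], .sh [-1] [1, -1, 0, -1]⟩,
  ⟨28800, [], .sh [-1] [1, 0, -1, -1]⟩,
  ⟨339840, [], .sh [-1] [1, 0, -1, 1]⟩,
  ⟨-289584, [], .sh [-1] [1, 0, 0, 1, -1]⟩,
  ⟨-975888, [], .sh [-1] [1, 1, 0, 0, -1]⟩,
  ⟨-39960, [-1, -2, -1], .sh [-1] []⟩,
  ⟨-116640, [-1, 2, 1], .sh [-1] []⟩,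
  ⟨-95040, [-2, -1, -1], .sh [-1] []⟩,
  ⟨-117720, [1, -1, -2], .sh [-1] []⟩,
  ⟨52920, [1, -2, -1], .sh [-1] []⟩,
  ⟨-116640, [1, -2], .sh [-1] []⟩,
  ⟨-142560, [1, 1, -2], .sh [-1] []⟩,
  ⟨-529632, [1, 3], .sh [-1] []⟩,
  ⟨-41040, [2, -1, -1], .sh [-1] []⟩]

def cert2 : List Entry := [
  ⟨-103680, [2, -1], .sh [-1] []⟩,
  ⟨-231336, [2, -2], .sh [-1] []⟩,
  ⟨-112320, [3], .sh [-1] []⟩,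
  ⟨-337032, [], .sh [0, -1, -1, 0, -1, -1] []⟩,
  ⟨103392, [], .sh [0, -1, -1, 0, -1, 1] []⟩,
  ⟨-228960, [], .sh [0, -1, -1, 0, -1] []⟩,
  ⟨105480, [], .sh [0, -1, -1, 0, 1, -1] []⟩,
  ⟨-444096, [], .sh [0, -1, -1, 0, 1, 1] []⟩,
  ⟨-288, [], .sh [0, -1, -1, 0, 1] [-1]⟩,
  ⟨-48384, [1], .sh [0, -1, -1, 0, 1] []⟩,
  ⟨-52164, [], .sh [0, -1, -1, 0, 1] []⟩,
  ⟨-113400, [], .sh [0, -1, -1, 1, 0, -1] []⟩,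
  ⟨6048, [], .sh [0, -1, -1] [0, -1, -1]⟩,
  ⟨55080, [], .sh [0, -1, 0, -1, -1, -1] []⟩,
  ⟨-373536, [], .sh [0, -1, 0, -1, -1, 1] []⟩,
  ⟨-190080, [], .sh [0, -1, 0, -1, -1] []⟩,
  ⟨360000, [], .sh [0, -1, 0, -1, 1, 1] []⟩,
  ⟨-2292624, [], .sh [0, -1, 0, 0, -1, -1] []⟩,
  ⟨278640, [], .sh [0, -1, 0, 0, -1, 1] []⟩,
  ⟨-153360, [], .sh [0, -1, 0, 0, 1, -1] []⟩,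
  ⟨83808, [], .sh [0, -1, 0, 0, 1, 1] []⟩,
  ⟨-475056, [], .sh [0, -1, 0, 1, -1, -1] []⟩,
  ⟨229392, [], .sh [0, -1, 0, 1, -1, 1] []⟩,
  ⟨168480, [], .sh [0, -1, 0, 1, -1] []⟩,
  ⟨84240, [], .sh [0, -1, 0, 1, 0, -1] []⟩,
  ⟨-58896, [], .sh [0, -1, 0, 1, 1, -1] []⟩,
  ⟨-65664, [], .sh [0, -1, 0, 1, 1, 1] []⟩,
  ⟨-38556, [], .sh [0, -1, 0, 1] [-1]⟩,
  ⟨109620, [], .sh [0, -1, 0, 1] [0, 1]⟩,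
  ⟨-361440, [], .sh [0, -1, 1, 0, -1, -1] []⟩,
  ⟨6120, [], .sh [0, -1, 1, 0, -1, 1] []⟩,
  ⟨51552, [], .sh [0, -1, 1, 0, 1, -1] []⟩,
  ⟨-51552, [], .sh [0, -1, 1, 0, 1] [-1]⟩,
  ⟨-84240, [], .sh [0, -1, 1] [0, -1, 1]⟩,
  ⟨-38016, [], .sh [0, -1] [0, -1, -1, -1]⟩,
  ⟨-51840, [], .sh [0, -1] [0, -1, -1]⟩,
  ⟨143640, [], .sh [0, -1] [0, -1, 0, -1]⟩,
  ⟨-155520, [], .sh [0, -1] [0, -1, 1]⟩,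
  ⟨-216000, [], .sh [0, -1] [0, 0, -1, -1]⟩,
  ⟨43200, [], .sh [0, -1] [0, 1, -1, -1]⟩,
  ⟨-51840, [], .sh [0, -1] [1, -1]⟩,
  ⟨84240, [-1, -2], .sh [0, -1] []⟩,
  ⟨121500, [-1, -3], .sh [0, -1] []⟩,
  ⟨39420, [-1, 1, -2], .sh [0, -1] []⟩,
  ⟨90720, [1, 1, -1], .sh [0, -1] []⟩,
  ⟨149040, [2, 1, -1], .sh [0, -1] []⟩,
  ⟨17820, [3, -1], .sh [0, -1] []⟩,
  ⟨-105840, [], .sh [0, 0, -1, -1, -1, 1] []⟩,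
  ⟨-31104, [], .sh [0, 0, -1, -1, -1] []⟩,
  ⟨-753192, [], .sh [0, 0, -1, -1, 0, -1] []⟩]

def cert3 : List Entry := [
  ⟨70416, [], .sh [0, 0, -1, -1, 0, 1] []⟩,
  ⟨615312, [], .sh [0, 0, -1, -1, 1, -1] []⟩,
  ⟨763560, [], .sh [0, 0, -1, -1, 1, 1] []⟩,
  ⟨-546912, [], .sh [0, 0, -1, 0, -1, -1] []⟩,
  ⟨289440, [], .sh [0, 0, -1, 0, -1, 1] []⟩,
  ⟨390528, [], .sh [0, 0, -1, 0, -1] []⟩,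
  ⟨-83160, [], .sh [0, 0, -1, 0, 1, -1] []⟩,
  ⟨179280, [], .sh [0, 0, -1, 0, 1, 1] []⟩,
  ⟨31104, [], .sh [0, 0, -1, 0, 1] []⟩,
  ⟨736272, [], .sh [0, 0, -1, 1, -1, -1] []⟩,
  ⟨398520, [], .sh [0, 0, -1, 1, -1, 1] []⟩,
  ⟨-155520, [], .sh [0, 0, -1, 1, -1] []⟩,
  ⟨-286200, [], .sh [0, 0, -1, 1, 0, -1] []⟩,
  ⟨70200, [], .sh [0, 0, -1, 1, 0, 1] []⟩,
  ⟨114480, [], .sh [0, 0, -1, 1, 1, 1] []⟩,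
  ⟨27864, [], .sh [0, 0, -1] [0, 0, -1]⟩,
  ⟨202968, [-2], .sh [0, 0, -1] []⟩,
  ⟨181440, [], .sh [0, 0, -1] []⟩,
  ⟨-101952, [], .sh [0, 0, 0, -1, -1, -1] []⟩,
  ⟨-95040, [], .sh [0, 0, 0, -1, -1, 1] []⟩,
  ⟨415368, [], .sh [0, 0, 0, -1, -1] [1]⟩,
  ⟨1157112, [], .sh [0, 0, 0, -1, 0, -1] []⟩,
  ⟨-381456, [], .sh [0, 0, 0, -1, 0, 1] []⟩,
  ⟨-466560, [], .sh [0, 0, 0, -1, 1, -1] []⟩,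
  ⟨1111104, [], .sh [0, 0, 0, -1, 1, 1] []⟩,
  ⟨304398, [], .sh [0, 0, 0, -1] [0, -1]⟩,
  ⟨-25056, [1], .sh [0, 0, 0, -1] []⟩,
  ⟨-565056, [], .sh [0, 0, 0, 0, -1, -1] []⟩,
  ⟨-112320, [], .sh [0, 0, 0, 0, -1, 1] []⟩,
  ⟨749462, [], .sh [0, 0, 0, 0, 0, -1] []⟩,
  ⟨-223560, [], .sh [0, 0, 0, 0, 1, -1] []⟩,
  ⟨2449872, [], .sh [0, 0, 0, 0, 1, 1] []⟩,
  ⟨-264708, [], .sh [0, 0, 0, 0, 1] []⟩,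
  ⟨-117720, [], .sh [0, 0, 0, 1, -1, -1] []⟩,
  ⟨572292, [], .sh [0, 0, 0, 1, -1, 1] []⟩,
  ⟨-1029294, [], .sh [0, 0, 0, 1, 0, -1] []⟩,
  ⟨1300320, [], .sh [0, 0, 0, 1, 0, 1] []⟩,
  ⟨592704, [], .sh [0, 0, 0, 1, 1, -1] []⟩,
  ⟨3170880, [], .sh [0, 0, 0, 1, 1, 1] []⟩,
  ⟨-305640, [], .sh [0, 0, 0, 1, 1] []⟩,
  ⟨-306018, [1], .sh [0, 0, 0, 1] []⟩,
  ⟨257040, [], .sh [0, 0, 1, -1, -1, -1] []⟩,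
  ⟨153720, [], .sh [0, 0, 1, -1, -1, 1] []⟩,
  ⟨392040, [], .sh [0, 0, 1, -1, 0, -1] []⟩,
  ⟨56160, [], .sh [0, 0, 1, -1, 0, 1] []⟩,
  ⟨94824, [], .sh [0, 0, 1, -1, 1, -1] []⟩,
  ⟨-77760, [], .sh [0, 0, 1, -1, 1, 1] []⟩,
  ⟨-82512, [], .sh [0, 0, 1, -1, 1] [-1]⟩,
  ⟨51840, [], .sh [0, 0, 1, -1, 1] []⟩,
  ⟨241920, [], .sh [0, 0, 1, -1] [0, -1]⟩]

def cert4 : List Entry := [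
  ⟨-1120392, [], .sh [0, 0, 1, 0, -1, -1] []⟩,
  ⟨402732, [], .sh [0, 0, 1, 0, -1, 1] []⟩,
  ⟨-151200, [], .sh [0, 0, 1, 0, -1] []⟩,
  ⟨219132, [], .sh [0, 0, 1, 0, 1, -1] []⟩,
  ⟨719280, [], .sh [0, 0, 1, 0, 1, 1] []⟩,
  ⟨108000, [], .sh [0, 0, 1, 0, 1] []⟩,
  ⟨34128, [], .sh [0, 0, 1, 1, -1, -1] []⟩,
  ⟨-77760, [], .sh [0, 0, 1, 1, -1, 1] []⟩,
  ⟨-1828224, [], .sh [0, 0, 1, 1, 0, -1] []⟩,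
  ⟨-531360, [], .sh [0, 0, 1, 1, 0, 1] []⟩,
  ⟨2903040, [], .sh [0, 0, 1, 1, 1, 1] []⟩,
  ⟨181440, [], .sh [0, 0, 1, 1] [1]⟩,
  ⟨-289620, [], .sh [0, 0, 1] [0, 0, 1]⟩,
  ⟨113400, [], .sh [0, 0, 1] [1]⟩,
  ⟨42840, [], .sh [0, 0, 1] []⟩,
  ⟨-284832, [], .sh [0, 1, -1, -1, 0, 1] []⟩,
  ⟨-111600, [], .sh [0, 1, -1, -1, 1] []⟩,
  ⟨-296640, [], .sh [0, 1, -1, 0, -1, -1] []⟩,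
  ⟨-24192, [], .sh [0, 1, -1, 0, -1, 1] []⟩,
  ⟨6192, [], .sh [0, 1, -1, 0, 1, -1] []⟩,
  ⟨-159840, [], .sh [0, 1, -1, 0, 1, 1] []⟩,
  ⟨69840, [], .sh [0, 1, -1, 1, -1] []⟩,
  ⟨-41040, [], .sh [0, 1, -1, 1, 0, -1] []⟩,
  ⟨2160, [], .sh [0, 1, -1] [0, 1, -1]⟩,
  ⟨77328, [], .sh [0, 1, 0, -1, -1, -1] []⟩,
  ⟨189720, [], .sh [0, 1, 0, -1, -1, 1] []⟩,
  ⟨5256, [], .sh [0, 1, 0, -1, -1] [1]⟩,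
  ⟨-332640, [], .sh [0, 1, 0, -1, -1] []⟩,
  ⟨60372, [], .sh [0, 1, 0, -1, 0, -1] []⟩,
  ⟨-293220, [], .sh [0, 1, 0, -1, 0, 1] []⟩,
  ⟨69840, [], .sh [0, 1, 0, -1, 1, -1] []⟩,
  ⟨-52560, [], .sh [0, 1, 0, -1, 1, 1] []⟩,
  ⟨-181440, [], .sh [0, 1, 0, -1] []⟩,
  ⟨-194400, [], .sh [0, 1, 0, 0, -1, 1] []⟩,
  ⟨57240, [], .sh [0, 1, 0, 0, 1, -1] []⟩,
  ⟨583200, [], .sh [0, 1, 0, 0, 1, 1] []⟩,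
  ⟨17064, [], .sh [0, 1, 0, 1, -1, -1] []⟩,
  ⟨-96480, [], .sh [0, 1, 0, 1, -1, 1] []⟩,
  ⟨-64800, [], .sh [0, 1, 0, 1, -1] []⟩,
  ⟨-864540, [], .sh [0, 1, 0, 1, 0, -1] []⟩,
  ⟨51120, [], .sh [0, 1, 0, 1, 1, -1] []⟩,
  ⟨816480, [], .sh [0, 1, 0, 1, 1, 1] []⟩,
  ⟨61920, [], .sh [0, 1, 1, -1, -1] []⟩,
  ⟨45360, [], .sh [0, 1, 1, -1, 0, -1] []⟩,
  ⟨-133920, [], .sh [0, 1, 1, -1, 0, 1] []⟩,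
  ⟨83520, [], .sh [0, 1, 1, 0, -1, -1] []⟩,
  ⟨-138240, [], .sh [0, 1, 1, 0, -1, 1] []⟩,
  ⟨34560, [], .sh [0, 1, 1, 0, 1, -1] []⟩,
  ⟨90720, [], .sh [0, 1, 1, 0, 1, 1] []⟩,
  ⟨151200, [], .sh [0, 1, 1, 0, 1] [1]⟩]

def cert5 : List Entry := [
  ⟨-737424, [], .sh [0, 1, 1, 1, 0, -1] []⟩,
  ⟨-56160, [], .sh [0, 1] [-1, 0, 1, 1]⟩,
  ⟨155520, [], .sh [0, 1] [-1, 0, 1]⟩,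
  ⟨-56160, [], .sh [0, 1] [-1, 1, 1]⟩,
  ⟨-51840, [], .sh [0, 1] [-1, 1]⟩,
  ⟨90720, [], .sh [0, 1] [0, -1, -1]⟩,
  ⟨-224640, [], .sh [0, 1] [0, 0, -1, 1]⟩,
  ⟨-64800, [], .sh [0, 1] [0, 0, -1]⟩,
  ⟨-184734, [], .sh [0, 1] [0, 0, 0, -1]⟩,
  ⟨-66960, [], .sh [0, 1] [0, 0, 1, 1]⟩,
  ⟨28260, [], .sh [0, 1] [0, 0, 1]⟩,
  ⟨2160, [], .sh [0, 1] [0, 1, -1, 1]⟩,
  ⟨272160, [], .sh [0, 1] [0, 1, 0, 1]⟩,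
  ⟨-90720, [], .sh [0, 1] [0, 1, 1]⟩,
  ⟨-34020, [], .sh [0, 1] [0, 1]⟩,
  ⟨-28080, [-1, 1, -1], .sh [0, 1] []⟩,
  ⟨-465480, [1, 2], .sh [0, 1] []⟩,
  ⟨-349875, [3], .sh [0, 1] []⟩,
  ⟨106560, [], .sh [1, -1, 0, -1, 1] []⟩,
  ⟨44856, [], .sh [1, -1, 0, 0, -1] [-1]⟩,
  ⟨427680, [], .sh [1, -1, 0, 0, -1] []⟩,
  ⟨4320, [], .sh [1, -1, 1, 0, 1] []⟩,
  ⟨656640, [], .sh [1, 0, -1, 0, -1, 1] []⟩,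
  ⟨98784, [], .sh [1, 0, -1, 0, 1, -1] []⟩,
  ⟨-25920, [], .sh [1, 0, -1, 0, 1] []⟩,
  ⟨-51840, [], .sh [1, 0, -1] [-1]⟩,
  ⟨1951776, [], .sh [1, 0, 0, -1, -1, -1] []⟩,
  ⟨1014120, [], .sh [1, 0, 0, -1, -1, 1] []⟩,
  ⟨-662400, [], .sh [1, 0, 0, -1, -1] [-1]⟩,
  ⟨-16848, [], .sh [1, 0, 0, -1, -1] []⟩,
  ⟨662400, [], .sh [1, 0, 0, -1, 1, -1] []⟩,
  ⟨10800, [], .sh [1, 0, 0, -1, 1, 1] []⟩,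
  ⟨-181440, [], .sh [1, 0, 0, -1, 1] []⟩,
  ⟨742608, [], .sh [1, 0, 0, 0, -1, -1] []⟩,
  ⟨-613440, [], .sh [1, 0, 0, 0, -1, 1] []⟩,
  ⟨369792, [], .sh [1, 0, 0, 0, -1] []⟩,
  ⟨-267840, [], .sh [1, 0, 0, 0, 1, -1] []⟩,
  ⟨837288, [], .sh [1, 0, 0, 1, -1, -1] []⟩,
  ⟨-77760, [], .sh [1, 0, 0, 1, -1, 1] []⟩,
  ⟨-41400, [], .sh [1, 0, 0, 1, 1, -1] []⟩,
  ⟨1058400, [], .sh [1, 0, 0, 1, 1, 1] []⟩,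
  ⟨151200, [], .sh [1, 0, 0, 1, 1] [1]⟩,
  ⟨-173880, [1], .sh [1, 0, 0, 1, 1] []⟩,
  ⟨90720, [], .sh [1, 0, 0, 1, 1] []⟩,
  ⟨482688, [], .sh [1, 0, 1, 0, -1, -1] []⟩,
  ⟨-117360, [], .sh [1, 0, 1, 0, -1, 1] []⟩,
  ⟨21240, [], .sh [1, 0, 1, 0, 1, -1] []⟩,
  ⟨-19440, [], .sh [1, 1, 0, 1, -1] []⟩,
  ⟨-233280, [], .sh [1] [-1, -1, 0, -1]⟩,
  ⟨398520, [], .sh [1] [-1, -1, 0, 0, 1]⟩]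

def cert6 : List Entry := [
  ⟨12960, [], .sh [1] [-1, -1, 0, 1]⟩,
  ⟨-155520, [], .sh [1] [-1, 0, -1, -1]⟩,
  ⟨180000, [], .sh [1] [-1, 0, -1, 0, 1]⟩,
  ⟨-223200, [], .sh [1] [-1, 0, -1, 1]⟩,
  ⟨51840, [], .sh [1] [-1, 0, -1]⟩,
  ⟨-99144, [], .sh [1] [-1, 0, 0, -1, 1]⟩,
  ⟨-155520, [], .sh [1] [-1, 0, 0, -1]⟩,
  ⟨572292, [], .sh [1] [-1, 0, 0, 0, 1]⟩,
  ⟨-78696, [], .sh [1] [-1, 0, 0, 1, -1]⟩,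
  ⟨-25920, [], .sh [1] [-1, 0, 0, 1]⟩,
  ⟨59040, [], .sh [1] [-1, 0, 1, 0, 1]⟩,
  ⟨73440, [], .sh [1] [-1, 0, 1, 1]⟩,
  ⟨105840, [], .sh [1] [-1, 1, 0, 1]⟩,
  ⟨284832, [], .sh [1] [0, -1, -1, 0, 1]⟩,
  ⟨103680, [], .sh [1] [0, -1, -1]⟩,
  ⟨282240, [], .sh [1] [0, -1, 0, -1, -1]⟩,
  ⟨90720, [], .sh [1] [0, -1, 0, 1, 1]⟩,
  ⟨-103680, [], .sh [1] [0, -1, 0, 1]⟩,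
  ⟨-181440, [], .sh [1] [0, -1, 1, -1]⟩,
  ⟨-34560, [], .sh [1] [0, -1, 1, 0, 1]⟩,
  ⟨56160, [], .sh [1] [0, -1, 1, 1]⟩,
  ⟨285120, [], .sh [1] [0, 0, -1, -1]⟩,
  ⟨-186408, [], .sh [1] [0, 0, -1, 1, -1]⟩,
  ⟨-38160, [], .sh [1] [0, 0, -1, 1, 1]⟩,
  ⟨-326160, [], .sh [1] [0, 0, 0, 1, 1]⟩,
  ⟨-6840, [], .sh [1] [0, 0, 1, -1, 1]⟩,
  ⟨178308, [], .sh [1] [0, 0, 1, 0, -1]⟩,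
  ⟨82800, [], .sh [1] [0, 0, 1, 1, -1]⟩,
  ⟨111600, [], .sh [1] [0, 1, -1, -1]⟩,
  ⟨-30240, [], .sh [1] [0, 1, -1, 1]⟩,
  ⟨136080, [], .sh [1] [0, 1, 0, 1]⟩,
  ⟨60480, [], .sh [1] [0, 1, 1, -1]⟩,
  ⟨-103680, [-1], .sh [1] [0, 1, 1]⟩,
  ⟨11340, [], .sh [1] [0, 1]⟩,
  ⟨239616, [], .sh [1] [1, -1, 0, 0, -1]⟩,
  ⟨-60480, [], .sh [1] [1, -1, 0, 1]⟩,
  ⟨23040, [], .sh [1] [1, 0, -1, -1]⟩,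
  ⟨296640, [], .sh [1] [1, 0, -1, 0, -1]⟩,
  ⟨-56160, [], .sh [1] [1, 0, -1, 1]⟩,
  ⟨32760, [], .sh [1] [1, 0, 0, -1, 1]⟩,
  ⟨-181440, [], .sh [1] [1, 0, 0, 1]⟩,
  ⟨10800, [], .sh [1] [1, 0, 1, -1]⟩,
  ⟨-21240, [], .sh [1] [1, 0, 1, 0, -1]⟩,
  ⟨60480, [], .sh [1] [1, 0, 1, 0, 1]⟩,
  ⟨-12960, [], .sh [1] [1, 1, 0, -1]⟩,
  ⟨725760, [], .sh [1] [1, 1, 0, 0, 1]⟩,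
  ⟨-196992, [-3], .sh [1] [1]⟩,
  ⟨-90720, [], .sh [1] [1]⟩,
  ⟨-77760, [-1, -1, 2], .sh [1] []⟩,
  ⟨-38880, [-1, -1, 3], .sh [1] []⟩]

def cert7 : List Entry := [
  ⟨-12960, [-1, -2, 1], .sh [1] []⟩,
  ⟨25920, [-1, -3], .sh [1] []⟩,
  ⟨-12960, [-1, 1, -2], .sh [1] []⟩,
  ⟨-19440, [-1, 2, 1], .sh [1] []⟩,
  ⟨-58320, [-1, 3], .sh [1] []⟩,
  ⟨-45360, [-2, -1, 2], .sh [1] []⟩,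
  ⟨-178956, [-2, 2, 1], .sh [1] []⟩,
  ⟨-144720, [-2, 2], .sh [1] []⟩,
  ⟨-44820, [-3, 1, -1], .sh [1] []⟩,
  ⟨17712, [-3, 1, 1], .sh [1] []⟩,
  ⟨-408888, [-3, 2], .sh [1] []⟩,
  ⟨-16740, [1, -1, -3], .sh [1] []⟩,
  ⟨-87696, [1, -2, -2], .sh [1] []⟩,
  ⟨-21600, [1, -2, 1], .sh [1] []⟩,
  ⟨135648, [1, -3], .sh [1] []⟩,
  ⟨8640, [1, 1, -2], .sh [1] []⟩,
  ⟨90720, [1, 3], .sh [1] []⟩,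
  ⟨68040, [1], .sh [1] []⟩,
  ⟨-19440, [2, -1, 1], .sh [1] []⟩,
  ⟨-233172, [2, -2, 1], .sh [1] []⟩,
  ⟨32400, [2, 1, -1], .sh [1] []⟩,
  ⟨-129060, [3, -1, 1], .sh [1] []⟩,
  ⟨-483840, [3, 1, 1], .sh [1] []⟩,
  ⟨-90720, [3], .sh [1] []⟩,
  ⟨160380, [4, -1], .sh [1] []⟩,
  ⟨-136080, [], .sh [1] []⟩]

def cert : List Entry :=
  cert0 ++ cert1 ++ cert2 ++ cert3 ++ cert4 ++ cert5 ++ cert6 ++ cert7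

end Pool.Agent.H97.Sun
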