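import Pool.Agent.H97.Sun.Fast
import Pool.Agent.H97.Sun.Data

namespace Pool.Agent.H97.Sun

theorem cert_ok : checkFast cert (smulC 5040 target) = true := by decide +kernel

end Pool.Agent.H97.Sun
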