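import Pool.Agent.H97.Sun.Reverse

namespace Pool.Agent.H97.Sun

open Finset

variable {R : Type} [CommRing R]

/-- letter function restricted to even indices -/
def Dist.feven (C : Ctx R) (a : ℤ) (k : ℕ) : R := if Even k then C.fl a k else 0

theorem Dist.fl_neg (C : Ctx R) {a : ℤ} (ha : 0 < a) (k : ℕ) :
    C.fl a k + C.fl (-a) k = 2 * Dist.feven C a k := by
  unfold Dist.feven Ctx.fl
  have h1 : ¬ a < 0 := by omega
  have h2 : -a < 0 := by omega
  rw [Int.natAbs_neg, if_neg h1, if_pos h2]
  by_cases hk : Even k
  · rw [if_pos hk, hk.neg_one_pow]; ring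
  · rw [if_neg hk, (Nat.not_even_iff_odd.mp hk).neg_one_pow]; ring

theorem Dist.sum_signs (C : Ctx R) (w : List ℤ) (hw : ∀ a ∈ w, 0 < a) :
    ∀ n, ((signs w).map fun u => A C.fl u n).sum = 2 ^ w.length * A (Dist.feven C) w n := by
  induction w with
  | nil => intro n; simp [signs, A]
  | cons a L ih =>
    have hL : ∀ b ∈ L, 0 < b := fun b hb => hw b (List.mem_cons_of_mem _ hb)
    have ha : 0 < a := hw a List.mem_cons_self
    intro n
    induction n with
    | zero =>
      rw [signs, List.map_append, List.sum_append, sum_map_cons_zero, sum_map_cons_zero,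
        A_cons_zero]
      ring
    | succ n ihn =>
      rw [signs, List.map_append, List.sum_append] at ihn ⊢
      rw [sum_map_cons_succ, sum_map_cons_succ, ih hL n, A_cons_succ, List.length_cons]
      rw [List.length_cons] at ihn
      have h1 := Dist.fl_neg C ha (n + 1)
      linear_combination ihn + 2 ^ L.length * A (Dist.feven C) L n * h1

theorem Dist.I_two_mul (C : Ctx R) {j : ℕ} (hj : 1 ≤ j) (h : 2 * j < C.p) :
    C.I j = 2 * C.I (2 * j) := by
  have h1 := C.hI j hj (by omega)
  have h2 := C.hI (2 * j) (by omega) h
  push_cast at h2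
  linear_combination (-C.I j) * h2 + 2 * C.I (2 * j) * h1

theorem Dist.fl_even (C : Ctx R) {a : ℤ} (ha : 0 < a) {j : ℕ} (hj : 1 ≤ j) (h : 2 * j < C.p) :
    2 ^ a.natAbs * C.fl a (2 * j) = C.fl a j := by
  unfold Ctx.fl
  have h1 : ¬ a < 0 := by omega
  rw [if_neg h1, if_neg h1, Dist.I_two_mul C hj h, mul_pow]
  ring

theorem Dist.A_feven (C : Ctx R) (w : List ℤ) (hw : ∀ a ∈ w, 0 < a) :
    ∀ m, m < C.p → 2 ^ wt w * A (Dist.feven C) w m = A C.fl w (m / 2) := by
  induction w with
  | nil => intro m _; simp [wt, A]
  | cons a L ih =>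
    have hL : ∀ b ∈ L, 0 < b := fun b hb => hw b (List.mem_cons_of_mem _ hb)
    have ha : 0 < a := hw a List.mem_cons_self
    have hwt : wt (a :: L) = a.natAbs + wt L := by simp [wt]
    intro m
    induction m with
    | zero => intro _; simp [A_cons_zero]
    | succ m ihm =>
      intro hm
      have h1 := ihm (by omega)
      have h2 := ih hL m (by omega)
      rw [A_cons_succ]
      rcases Nat.even_or_odd (m + 1) with he | ho
      · obtain ⟨j, hj⟩ := he
        have hj' : m + 1 = 2 * j := by omega
        have e1 : (m + 1) / 2 = m / 2 + 1 := by omega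
        have e2 : m / 2 + 1 = j := by omega
        rw [e1, A_cons_succ, ← h1, ← h2, e2, ← Dist.fl_even C ha (j := j) (by omega) (by omega),
          hwt, pow_add]
        have e3 : Dist.feven C a (m + 1) = C.fl a (2 * j) := by
          unfold Dist.feven
          rw [if_pos ⟨j, hj⟩, hj']
        rw [e3]
        ring
      · have e1 : (m + 1) / 2 = m / 2 := by
          obtain ⟨j, hj⟩ := ho
          omega
        have e3 : Dist.feven C a (m + 1) = 0 := by
          unfold Dist.feven
          rw [if_neg (Nat.not_even_iff_odd.mpr ho)]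
        rw [e1, e3, ← h1]
        ring

theorem Dist.length_le_wt (w : List ℤ) (hw : ∀ a ∈ w, 0 < a) : w.length ≤ wt w := by
  induction w with
  | nil => simp [wt]
  | cons a L ih =>
    have hL : ∀ b ∈ L, 0 < b := fun b hb => hw b (List.mem_cons_of_mem _ hb)
    have ha : 0 < a := hw a List.mem_cons_self
    have hwt : wt (a :: L) = a.natAbs + wt L := by simp [wt]
    rw [hwt, List.length_cons]
    have := ih hL
    omega

theorem Dist.odd_p (C : Ctx R) : C.p = 2 * ((C.p - 1) / 2) + 1 := by
  have h1 := C.hp.eq_two_or_odd
  have h2 := C.h2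
  omega

/-- Half sums of positive words in terms of full sums. -/
theorem halfW_sound (C : Ctx R) (w : List ℤ) (hw : ∀ a ∈ w, 0 < a) :
    A C.fl w ((C.p - 1) / 2) = ev C.val (halfW w) := by
  have hp := C.hp.pos
  rw [← Dist.A_feven C w hw (C.p - 1) (by omega), halfW, ev_map_one]
  have h1 : (List.map C.val (signs w)).sum = 2 ^ w.length * A (Dist.feven C) w (C.p - 1) :=
    Dist.sum_signs C w hw (C.p - 1)
  rw [h1]
  have h2 := Dist.length_le_wt w hw
  have h3 : (2 : R) ^ wt w = 2 ^ (wt w - w.length) * 2 ^ w.length := by
    rw [← pow_add]; congr 1; omega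
  push_cast
  rw [h3]
  ring

/-- Splitting a nested sum at the point `h`. -/
theorem A_split (f : ℤ → ℕ → R) (h : ℕ) (L : List ℤ) (n : ℕ) (hn : h ≤ n) :
    A f L n = ((splits L).map fun s =>
      A (fun a k => if h < k then f a k else 0) s.1 n * A f s.2 h).sum := by
  induction L generalizing n with
  | nil => simp [splits, A]
  | cons a L ih =>
    have key : ∀ n, h ≤ n → A f (a :: L) n = A f (a :: L) h + ((splits L).map fun s =>
        A (fun a k => if h < k then f a k else 0) (a :: s.1) n * A f s.2 h).sum := by
      intro n hn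
      induction n, hn using Nat.le_induction with
      | base =>
        have h0 : ∀ s : List ℤ × List ℤ,
            A (fun a k => if h < k then f a k else 0) (a :: s.1) h = 0 := by
          intro s
          rw [A]
          apply sum_eq_zero
          intro k hk
          rw [mem_range] at hk
          rw [if_neg (by omega), zero_mul]
        simp only [h0, zero_mul, List.map_const', List.sum_replicate, smul_zero, add_zero]
      | succ n hn ihn =>
        rw [A_cons_succ, ihn, ih n hn]
        have e : ∀ l : List (List ℤ × List ℤ), (l.map fun s =>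
            A (fun a k => if h < k then f a k else 0) (a :: s.1) (n + 1) * A f s.2 h).sum =
            (l.map fun s =>
              A (fun a k => if h < k then f a k else 0) (a :: s.1) n * A f s.2 h).sum +
            f a (n + 1) * (l.map fun s =>
              A (fun a k => if h < k then f a k else 0) s.1 n * A f s.2 h).sum := by
          intro l
          induction l with
          | nil => simp
          | cons s l ihl =>
            simp only [List.map_cons, List.sum_cons]
            rw [ihl, A_cons_succ, if_pos (by omega)]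
            ring
        rw [e]
        ring
    rw [key n hn, splits, List.map_cons, List.sum_cons, List.map_map]
    simp only [A, one_mul]
    rfl

/-- The part above one half, reflected. -/
theorem upper_half (C : Ctx R) (L : List ℤ) :
    A (fun a k => if (C.p - 1) / 2 < k then C.fl a k else 0) L (C.p - 1) =
      ev (fun w => A C.fl w ((C.p - 1) / 2)) (expW L.reverse) := by
  have hp := Dist.odd_p C
  set h := (C.p - 1) / 2 with hh
  by_cases hL : L = []
  · subst hL
    simp [A, expW, ev]
  · have h1 : A (fun a k => if h < k then C.fl a k else 0) L (C.p - 1) =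
        ∑ i ∈ range C.p, T (fun a k => if h < k then C.fl a k else 0) L i *
          (fun _ => (1 : R)) (C.p - 1 - i) := by
      rw [← sum_T]
      have : C.p - 1 + 1 = C.p := by omega
      rw [this]
      simp
    rw [h1, reversal (fun a k => if h < k then C.fl a k else 0) C.p L hL (fun _ => (1 : R))]
    -- indices above `h` do not contribute
    have h2 : ∀ (M : List ℤ) (n : ℕ), n ≤ h →
        B (fun a k => if h < C.p - k then C.fl a (C.p - k) else 0) M (fun _ => 1) n =
        B (fun a k => C.fl a (C.p - k)) M (fun _ => 1) n := by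
      intro M
      induction M with
      | nil => intro n _; rfl
      | cons a M ih =>
        intro n hn
        rw [B, B]
        apply sum_congr rfl
        intro k hk
        rw [mem_range] at hk
        rw [if_pos (by omega), ih k (by omega)]
    have h3 : ∀ (M : List ℤ) (n : ℕ), h ≤ n → n ≤ C.p - 1 →
        B (fun a k => if h < C.p - k then C.fl a (C.p - k) else 0) M (fun _ => 1) n =
        B (fun a k => C.fl a (C.p - k)) M (fun _ => 1) h := by
      intro M n hn hnp
      cases M with
      | nil => rfl
      | cons a M =>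
        rw [← h2 _ h le_rfl, B, B]
        symm
        apply sum_subset (range_subset_range.mpr hn)
        intro k hk hk'
        rw [mem_range] at hk hk'
        rw [if_neg (by omega), zero_mul]
    rw [h3 _ _ (by omega) le_rfl, expW_sound C _ _ _ (by omega)]
    congr 1
    funext w
    rw [A_eq_B]

theorem Dist.expL_pos {a : ℤ} (ha : 0 < a) : ∀ x ∈ expL a, ∀ b ∈ x.2, 0 < b := by
  intro x hx b hb
  unfold expL at hx
  rw [List.mem_map] at hx
  obtain ⟨t, _, rfl⟩ := hx
  simp only [List.mem_singleton] at hb
  rw [hb]
  unfold up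
  split_ifs <;> omega

theorem Dist.catC_pos {c d : Comb} (hc : ∀ x ∈ c, ∀ b ∈ x.2, 0 < b)
    (hd : ∀ x ∈ d, ∀ b ∈ x.2, 0 < b) : ∀ x ∈ catC c d, ∀ b ∈ x.2, 0 < b := by
  intro x hx b hb
  unfold catC at hx
  have h1 := List.mem_of_mem_filter hx
  rw [List.mem_flatMap] at h1
  obtain ⟨y, hy, h2⟩ := h1
  rw [List.mem_map] at h2
  obtain ⟨z, hz, rfl⟩ := h2
  simp only [List.mem_append] at hb
  rcases hb with hb | hb
  · exact hc y hy b hb
  · exact hd z hz b hb

theorem Dist.expW_pos (L : List ℤ) (hL : ∀ a ∈ L, 0 < a) :
    ∀ x ∈ expW L, ∀ b ∈ x.2, 0 < b := by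
  induction L with
  | nil =>
    intro x hx b hb
    simp only [expW, List.mem_singleton] at hx
    subst hx
    simp at hb
  | cons a L ih =>
    rw [expW]
    exact Dist.catC_pos (Dist.expL_pos (hL a List.mem_cons_self))
      (ih fun b hb => hL b (List.mem_cons_of_mem _ hb))

theorem Dist.st_pos (L : List ℤ) : ∀ M : List ℤ, (∀ a ∈ L, 0 < a) → (∀ a ∈ M, 0 < a) →
    ∀ w ∈ st L M, ∀ b ∈ w, 0 < b := by
  induction L with
  | nil =>
    intro M _ hM w hw b hb
    rw [st_nil_left, List.mem_singleton] at hw
    subst hw
    exact hM b hb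
  | cons a L ihL =>
    intro M
    induction M with
    | nil =>
      intro hL _ w hw b hb
      rw [st_nil_right, List.mem_singleton] at hw
      subst hw
      exact hL b hb
    | cons c M ihM =>
      intro hL hM w hw b hb
      have ha : 0 < a := hL a List.mem_cons_self
      have hc : 0 < c := hM c List.mem_cons_self
      have hL' : ∀ b ∈ L, 0 < b := fun b hb => hL b (List.mem_cons_of_mem _ hb)
      have hM' : ∀ b ∈ M, 0 < b := fun b hb => hM b (List.mem_cons_of_mem _ hb)
      rw [st_cons_cons, List.mem_append, List.mem_append, List.mem_map, List.mem_map,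
        List.mem_map] at hw
      rcases hw with ⟨v, hv, rfl⟩ | ⟨v, hv, rfl⟩ | ⟨v, hv, rfl⟩
      · rw [List.mem_cons] at hb
        rcases hb with rfl | hb
        · exact ha
        · exact ihL (c :: M) hL' hM v hv b hb
      · rw [List.mem_cons] at hb
        rcases hb with rfl | hb
        · exact hc
        · exact ihM hL hM' v hv b hb
      · rw [List.mem_cons] at hb
        rcases hb with rfl | hb
        · unfold dm
          rw [if_pos (by rw [eq_iff_iff]; constructor <;> intro <;> omega)]
          omega
        · exact ihL M hL' hM' v hv b hb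

theorem relDist_sound (C : Ctx R) (L : List ℤ) (hL : ∀ a ∈ L, 0 < a) :
    ev C.val (relDist L) = 0 := by
  have hp := Dist.odd_p C
  set h := (C.p - 1) / 2 with hh
  unfold relDist
  rw [ev_cons, ev_smulC, ev_flatMap]
  have hsp : ∀ (L : List ℤ), (∀ a ∈ L, 0 < a) → ∀ s ∈ splits L,
      (∀ a ∈ s.1, 0 < a) ∧ (∀ a ∈ s.2, 0 < a) := by
    intro L
    induction L with
    | nil =>
      intro _ s hs
      simp only [splits, List.mem_singleton] at hs
      subst hs
      simp
    | cons a L ih =>
      intro hL s hs
      rw [splits, List.mem_cons, List.mem_map] at hs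
      rcases hs with rfl | ⟨t, ht, rfl⟩
      · exact ⟨by simp, hL⟩
      · have h1 := ih (fun b hb => hL b (List.mem_cons_of_mem _ hb)) t ht
        refine ⟨?_, h1.2⟩
        intro b hb
        rw [List.mem_cons] at hb
        rcases hb with rfl | hb
        · exact hL _ List.mem_cons_self
        · exact h1.1 b hb
  have key : ∀ s ∈ splits L, ev C.val ((expW s.1.reverse).flatMap fun x =>
      (st x.2 s.2).flatMap fun w => if wt w ≤ 6 then smulC x.1 (halfW w) else []) =
      A (fun a k => if h < k then C.fl a k else 0) s.1 (C.p - 1) * A C.fl s.2 h := by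
    intro s hs
    obtain ⟨hs1, hs2⟩ := hsp L hL s hs
    rw [ev_flatMap, hh, upper_half, ← hh]
    have hx : ∀ x ∈ expW s.1.reverse, ev C.val ((st x.2 s.2).flatMap fun w =>
        if wt w ≤ 6 then smulC x.1 (halfW w) else []) =
        (x.1 : R) * A C.fl x.2 h * A C.fl s.2 h := by
      intro x hx
      have hxp := Dist.expW_pos s.1.reverse (fun a ha => hs1 a (List.mem_reverse.mp ha)) x hx
      rw [ev_flatMap, mul_assoc, st_sound C.fl C.fl_dm h x.2 s.2, ← List.sum_map_mul_left]
      congr 1
      apply List.map_congr_left
      intro w hw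
      have hwp := Dist.st_pos x.2 s.2 hxp hs2 w hw
      split_ifs with h6
      · rw [ev_smulC, ← halfW_sound C w hwp]
      · rw [ev_nil, A_fl_zero C w h (by omega), mul_zero]
    rw [List.map_congr_left hx, List.sum_map_mul_right]
    rfl
  rw [List.map_congr_left key, ← A_split C.fl h L (C.p - 1) (by omega)]
  unfold Ctx.val
  push_cast
  ring

end Pool.Agent.H97.Sun
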