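import Pool.Agent.H97.Sun.Target

/-! A kernel-friendly check of certificates: balanced merging of sorted lists. -/

namespace Pool.Agent.H97.Sun

abbrev SC := List (ℕ × List ℤ × ℤ)

def mAux (x : ℕ × List ℤ × ℤ) (xs : SC) (g : SC → SC) : SC → SC
  | [] => x :: xs
  | y :: ys =>
    bif Nat.blt x.1 y.1 then x :: g (y :: ys)
    else bif Nat.blt y.1 x.1 then y :: mAux x xs g ys
    else bif decide (x.2.1 = y.2.1) then (x.1, x.2.1, x.2.2 + y.2.2) :: g ys
    else x :: g (y :: ys)

def mrg : SC → SC → SC
  | [] => fun ys => ys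
  | x :: xs => mAux x xs (mrg xs)

def halves {α : Type} : List α → List α × List α
  | [] => ([], [])
  | x :: xs => let h := halves xs; (x :: h.2, h.1)

def msort : ℕ → Comb → SC
  | 0, c => c.map fun x => (code x.2, x.2, x.1)
  | n + 1, c =>
    match c with
    | [] => []
    | [x] => [(code x.2, x.2, x.1)]
    | x :: y :: l => mrg (msort n (x :: (halves l).1)) (msort n (y :: (halves l).2))

def sumE : ℕ → List Entry → SC
  | 0, es => es.flatMap fun e => msort 8 e.comb
  | n + 1, es =>
    match es with
    | [] => []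
    | [e] => msort 8 e.comb
    | e :: f :: l => mrg (sumE n (e :: (halves l).1)) (sumE n (f :: (halves l).2))

def allZero (s : SC) : Bool := s.all fun x => x.2.2 == 0

def checkFast (es : List Entry) (c : Comb) : Bool :=
  es.all (fun e => e.b.ok) && allZero (mrg (msort 9 c) (sumE 10 es))

end Pool.Agent.H97.Sun
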