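import Pool.Agent.H97.Sun.Integral
import Pool.Agent.H97.Sun.Dist
import Pool.Agent.H97.Sun.Fast

namespace Pool.Agent.H97.Sun

open Finset

variable {R : Type} [CommRing R]

theorem sum_T_pred (f : ℤ → ℕ → R) (L : List ℤ) (p : ℕ) (hp : 1 ≤ p) :
    ∑ i ∈ range p, T f L i = A f L (p - 1) := by
  have h : p = (p - 1) + 1 := by omega
  conv_lhs => rw [h]
  exact sum_T f L (p - 1)

theorem sum_swap_list {α : Type} (l : List α) (s : Finset ℕ) (F : α → ℕ → R) :
    (l.map fun w => ∑ m ∈ s, F w m).sum = ∑ m ∈ s, (l.map fun w => F w m).sum := by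
  induction l with
  | nil => simp
  | cons x l ih => simp only [List.map_cons, List.sum_cons, ih, sum_add_distrib]

theorem relSh_sound (C : Ctx R) (u v : List ℤ) (hu : okI u = true) (hv : okI v = true)
    (h : u ≠ []) : ev C.val (relSh u v) = 0 := by
  have hp : 1 ≤ C.p := C.hp.one_lt.le
  have h1 : ev C.val (trunc ((sh u v).map fun w => (1, fi w))) =
      ∑ i ∈ range C.p, T C.fl (fi u) i * A C.fl (fi v) (C.p - 1 - i) := by
    rw [ev_trunc _ (val_zero C)]
    have e1 : ev C.val ((sh u v).map fun w => (1, fi w)) =
        ((sh u v).map fun w => ∑ m ∈ range C.p, C.c w m).sum := by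
      have h2 : ((sh u v).map fun w => ((1 : ℤ), fi w)) = ((sh u v).map fi).map fun w => (1, w) := by
        rw [List.map_map]; rfl
      rw [h2, ev_map_one, List.map_map, Int.cast_one, one_mul]
      congr 1
      refine List.map_congr_left fun w hw => ?_
      have hok := sh_okI u v hu hv w hw
      simp only [Function.comp, Ctx.val]
      rw [← sum_T_pred C.fl (fi w) C.p hp]
      exact sum_congr rfl fun m _ => (c_eq_T C w hok m).symm
    rw [e1, sum_swap_list]
    have e2 : ∑ m ∈ range C.p, ((sh u v).map fun w => C.c w m).sum =
        ∑ m ∈ range C.p, ∑ k ∈ range (m + 1), C.c u k * C.c v (m - k) := by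
      refine sum_congr rfl fun m hm => ?_
      rw [← sh_sound C u v hu hv m (mem_range.mp hm)]
      exact Finset.Nat.sum_antidiagonal_eq_sum_range_succ (fun a b => C.c u a * C.c v b) m
    rw [e2, Finset.sum_range_diag_flip C.p (fun a b => C.c u a * C.c v b)]
    refine sum_congr rfl fun i hi => ?_
    rw [← mul_sum, c_eq_T C u hu i]
    congr 1
    have hi' : i < C.p := mem_range.mp hi
    rw [show C.p - 1 - i = (C.p - i) - 1 by omega, ← sum_T_pred C.fl (fi v) (C.p - i) (by omega)]
    exact sum_congr rfl fun m _ => c_eq_T C v hv m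
  have h2 : ev C.val (trunc ((expW (fi u).reverse).map fun x => (x.1, x.2 ++ fi v))) =
      ∑ i ∈ range C.p, T C.fl (fi u) i * A C.fl (fi v) (C.p - 1 - i) := by
    rw [ev_trunc _ (val_zero C), reversal C.fl C.p (fi u) (fi_ne_nil u hu h) (A C.fl (fi v)),
      expW_sound C _ _ _ le_rfl]
    generalize expW (fi u).reverse = c
    induction c with
    | nil => simp [ev]
    | cons x c ih =>
      rw [List.map_cons, ev_cons, ih, ev_cons]
      simp only [Ctx.val, A_append]
  unfold relSh
  rw [ev_append, ev_smulC, h1, h2]
  push_cast
  ring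

/-! ### Merging -/

def evS (g : List ℤ → R) (s : SC) : R := (s.map fun x => (x.2.2 : R) * g x.2.1).sum

theorem evS_cons (g : List ℤ → R) (x : ℕ × List ℤ × ℤ) (s : SC) :
    evS g (x :: s) = (x.2.2 : R) * g x.2.1 + evS g s := by simp [evS]

theorem evS_nil (g : List ℤ → R) : evS g [] = 0 := by simp [evS]

theorem evS_append (g : List ℤ → R) (s t : SC) : evS g (s ++ t) = evS g s + evS g t := by
  simp [evS]

theorem evS_mAux (g : List ℤ → R) (x : ℕ × List ℤ × ℤ) (xs : SC) (f : SC → SC)
    (hf : ∀ ys, evS g (f ys) = evS g xs + evS g ys) (ys : SC) :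
    evS g (mAux x xs f ys) = evS g (x :: xs) + evS g ys := by
  induction ys with
  | nil => simp [mAux, evS_nil]
  | cons y ys ih =>
    unfold mAux
    cases h1 : Nat.blt x.1 y.1 with
    | true => simp only [cond_true, evS_cons, hf]; ring
    | false =>
      cases h2 : Nat.blt y.1 x.1 with
      | true => simp only [cond_false, cond_true, evS_cons, ih]; ring
      | false =>
        by_cases h3 : x.2.1 = y.2.1
        · simp only [cond_false, h3, decide_true, cond_true, evS_cons, hf]
          push_cast
          ring
        · simp only [cond_false, h3, decide_false, evS_cons, hf]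
          ring

theorem evS_mrg (g : List ℤ → R) (xs ys : SC) : evS g (mrg xs ys) = evS g xs + evS g ys := by
  induction xs generalizing ys with
  | nil => simp [mrg, evS_nil]
  | cons x xs ih => exact evS_mAux g x xs (mrg xs) ih ys

theorem sum_halves {α : Type} (F : α → R) (l : List α) :
    ((halves l).1.map F).sum + ((halves l).2.map F).sum = (l.map F).sum := by
  induction l with
  | nil => simp [halves]
  | cons x l ih =>
    simp only [halves, List.map_cons, List.sum_cons, ← ih]
    ring

theorem evS_map (g : List ℤ → R) (c : Comb) :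
    evS g (c.map fun x => (code x.2, x.2, x.1)) = ev g c := by
  induction c with
  | nil => simp [evS_nil, ev]
  | cons x c ih => rw [List.map_cons, evS_cons, ih, ev_cons]

theorem evS_msort (g : List ℤ → R) (n : ℕ) (c : Comb) : evS g (msort n c) = ev g c := by
  induction n generalizing c with
  | zero => exact evS_map g c
  | succ n ih =>
    match c with
    | [] => simp [msort, evS_nil, ev]
    | [x] => simp [msort, evS, ev]
    | x :: y :: l =>
      have h := sum_halves (fun x : ℤ × List ℤ => (x.1 : R) * g x.2) l
      unfold msort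
      rw [evS_mrg, ih, ih]
      simp only [ev, List.map_cons, List.sum_cons]
      rw [← h]
      ring

theorem evS_sumE (g : List ℤ → R) (n : ℕ) (es : List Entry) :
    evS g (sumE n es) = (es.map fun e => ev g e.comb).sum := by
  induction n generalizing es with
  | zero =>
    induction es with
    | nil => simp [sumE, evS_nil]
    | cons e es ih =>
      simp only [sumE] at ih ⊢
      rw [List.flatMap_cons, evS_append, ih, evS_msort, List.map_cons, List.sum_cons]
  | succ n ih =>
    match es with
    | [] => simp [sumE, evS_nil]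
    | [e] => simp [sumE, evS_msort]
    | e :: f :: l =>
      have h := sum_halves (fun e : Entry => ev g e.comb) l
      unfold sumE
      rw [evS_mrg, ih, ih]
      simp only [List.map_cons, List.sum_cons]
      rw [← h]
      ring

theorem evS_allZero (g : List ℤ → R) (s : SC) (h : allZero s = true) : evS g s = 0 := by
  induction s with
  | nil => exact evS_nil g
  | cons x s ih =>
    simp only [allZero, List.all_cons, Bool.and_eq_true, beq_iff_eq] at h ih
    rw [evS_cons, ih h.2, h.1]
    simp

theorem Base.sound (C : Ctx R) (b : Base) (h : b.ok = true) : ev C.val b.rel = 0 := by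
  cases b with
  | sh u v =>
    simp only [Base.ok, Bool.and_eq_true, decide_eq_true_eq] at h
    exact relSh_sound C u v h.1.1 h.1.2 h.2
  | dist L =>
    simp only [Base.ok, List.all_eq_true, decide_eq_true_eq] at h
    exact relDist_sound C L h

theorem Entry.sound (C : Ctx R) (e : Entry) (h : e.b.ok = true) : ev C.val e.comb = 0 := by
  unfold Entry.comb
  rw [ev_smulC, ev_mulC, Base.sound C e.b h]
  ring

theorem checkFast_sound (C : Ctx R) (es : List Entry) (c : Comb) (h : checkFast es c = true) :
    ev C.val c = 0 := by
  unfold checkFast at h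
  rw [Bool.and_eq_true, List.all_eq_true] at h
  have h1 := evS_allZero C.val _ h.2
  rw [evS_mrg, evS_msort, evS_sumE] at h1
  have h2 : (es.map fun e => ev C.val e.comb).sum = 0 := by
    apply List.sum_eq_zero
    intro y hy
    obtain ⟨e, he, rfl⟩ := List.mem_map.mp hy
    exact Entry.sound C e (h.1 e he)
  rw [h2, add_zero] at h1
  exact h1

end Pool.Agent.H97.Sun
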