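import Mathlib

/-!
# Multiple harmonic sums below a prime, truncated in weight: definitions

Letters are integers: the letter `a` stands for `p ^ |a| / k ^ |a|`, times `(-1) ^ k` when `a < 0`.
Words are lists of letters, the OUTERMOST summation index first.
-/

namespace Pool.Agent.H97.Sun

open Finset

/-- The ring data: an odd prime `p`, a commutative ring in which `p ^ 7 = 0` and in which
`1, ..., p - 1` have the inverses `I 1, ..., I (p - 1)`. -/
structure Ctx (R : Type) [CommRing R] where
  p : ℕ
  hp : p.Prime
  h2 : p ≠ 2
  I : ℕ → R
  hI : ∀ k, 1 ≤ k → k < p → (k : R) * I k = 1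
  hI0 : I 0 = 0
  hnil : (p : R) ^ 7 = 0

variable {R : Type} [CommRing R]

/-- The value of a letter at an index. -/
def Ctx.fl (C : Ctx R) (a : ℤ) (k : ℕ) : R :=
  (C.p : R) ^ a.natAbs * C.I k ^ a.natAbs * (if a < 0 then (-1) ^ k else 1)

/-- Product of two letters. -/
def dm (a b : ℤ) : ℤ :=
  if (a < 0) = (b < 0) then ((a.natAbs + b.natAbs : ℕ) : ℤ) else -((a.natAbs + b.natAbs : ℕ) : ℤ)

/-- Nested sum with letter function `f` over `n ≥ k_1 > k_2 > ... ≥ 1` (outermost letter first). -/
def A (f : ℤ → ℕ → R) : List ℤ → ℕ → R
  | [], _ => 1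
  | a :: L, n => ∑ k ∈ range n, f a (k + 1) * A f L k

/-- Nested sum with an inner function `g`. -/
def B (f : ℤ → ℕ → R) : List ℤ → (ℕ → R) → ℕ → R
  | [], g, n => g n
  | a :: L, g, n => ∑ k ∈ range n, f a (k + 1) * B f L g k

/-- The term with outermost index `m` of the nested sum of a word (`δ_{m,0}` for the empty word). -/
def T (f : ℤ → ℕ → R) : List ℤ → ℕ → R
  | [], m => if m = 0 then 1 else 0
  | a :: L, m => if m = 0 then 0 else f a m * A f L (m - 1)

/-- The value of a word: the full sum below `p`. -/
def Ctx.val (C : Ctx R) (w : List ℤ) : R := A C.fl w (C.p - 1)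

/-- Weight of a word. -/
def wt (w : List ℤ) : ℕ := (w.map Int.natAbs).sum

/-- Formal combinations of words. -/
abbrev Comb := List (ℤ × List ℤ)

/-- Evaluation of a formal combination. -/
def ev (g : List ℤ → R) (c : Comb) : R := (c.map fun x => (x.1 : R) * g x.2).sum

/-! ### Stuffle product of words -/

def stAux (a : ℤ) (L : List ℤ) (g : List ℤ → List (List ℤ)) : List ℤ → List (List ℤ)
  | [] => [a :: L]
  | b :: M => (g (b :: M)).map (List.cons a) ++ ((stAux a L g M).map (List.cons b) ++
      (g M).map (List.cons (dm a b)))

/-- The words of the quasi-shuffle (stuffle) product, with multiplicity. -/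
def st : List ℤ → List ℤ → List (List ℤ)
  | [] => fun M => [M]
  | a :: L => stAux a L (st L)

/-! ### Shuffle product of integral words (letters `0, 1, -1`) -/

def shAux (a : ℤ) (L : List ℤ) (g : List ℤ → List (List ℤ)) : List ℤ → List (List ℤ)
  | [] => [a :: L]
  | b :: M => (g (b :: M)).map (List.cons a) ++ (shAux a L g M).map (List.cons b)

/-- The words of the shuffle product, with multiplicity. -/
def sh : List ℤ → List ℤ → List (List ℤ)
  | [] => fun M => [M]
  | a :: L => shAux a L (sh L)

/-- Multiply the first letter by the sign `e`. -/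
def twist (e : ℤ) : List ℤ → List ℤ
  | [] => []
  | b :: L => (e * b) :: L

/-- Raise the exponent of the first letter. -/
def bump : List ℤ → List ℤ
  | [] => []
  | a :: L => (if a < 0 then a - 1 else a + 1) :: L

/-- From integral words to words. -/
def fi : List ℤ → List ℤ
  | [] => []
  | x :: w => if x = 0 then bump (fi w) else x :: twist x (fi w)

/-- Valid integral words: letters in `{0, 1, -1}`, the innermost letter nonzero. -/
def okI : List ℤ → Bool
  | [] => true
  | [x] => x == 1 || x == -1
  | x :: y :: w => (x == 0 || x == 1 || x == -1) && okI (y :: w)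

/-- Coefficient sequences of integral words. -/
def Ctx.c (C : Ctx R) : List ℤ → ℕ → R
  | [], m => if m = 0 then 1 else 0
  | x :: w, m => (C.p : R) * C.I m *
      (if x = 0 then C.c w m else ∑ j ∈ range m, (x : R) ^ (m - j) * C.c w j)

/-! ### Reversal `k ↦ p - k` -/

/-- Add `t` to the exponent of a letter. -/
def up (a : ℤ) (t : ℕ) : ℤ := if a < 0 then a - t else a + t

/-- The expansion of a letter at `p - k` in letters at `k` (weights above `6` dropped). -/
def expL (a : ℤ) : Comb :=
  (List.range (7 - a.natAbs)).map fun t =>
    ((if a < 0 then -1 else 1) * (-1) ^ a.natAbs * ((a.natAbs + t - 1).choose t : ℤ), [up a t])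

/-- Concatenation product of combinations, dropping weights above `6`. -/
def catC (c d : Comb) : Comb :=
  (c.flatMap fun x => d.map fun y => (x.1 * y.1, x.2 ++ y.2)).filter fun z => decide (wt z.2 ≤ 6)

/-- The expansion of a word at reflected indices. -/
def expW : List ℤ → Comb
  | [] => [(1, [])]
  | a :: L => catC (expL a) (expW L)

/-! ### Relations -/

/-- Drop the words of weight above `6`. -/
def trunc (c : Comb) : Comb := c.filter fun z => decide (wt z.2 ≤ 6)

def smulC (n : ℤ) (c : Comb) : Comb := c.map fun x => (n * x.1, x.2)

/-- Product of a word and a combination. -/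
def mulC (w : List ℤ) (c : Comb) : Comb :=
  trunc (c.flatMap fun x => (st w x.2).map fun u => (x.1, u))

/-- The shuffle-reversal relation of two integral words. -/
def relSh (u v : List ℤ) : Comb :=
  trunc ((sh u v).map fun w => (1, fi w)) ++
    smulC (-1) (trunc ((expW (fi u).reverse).map fun x => (x.1, x.2 ++ fi v)))

/-- All sign choices for a word. -/
def signs : List ℤ → List (List ℤ)
  | [] => [[]]
  | a :: L => (signs L).map (List.cons a) ++ (signs L).map (List.cons (-a))

/-- The half sum of a positive word, in terms of words: `2 ^ (weight - depth) * ∑ signs`. -/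
def halfW (w : List ℤ) : Comb := (signs w).map fun u => (2 ^ (wt w - w.length), u)

/-- All splittings of a list. -/
def splits : List ℤ → List (List ℤ × List ℤ)
  | [] => [([], [])]
  | a :: L => ([], a :: L) :: (splits L).map fun x => (a :: x.1, x.2)

/-- The distribution relation of a positive word. -/
def relDist (L : List ℤ) : Comb :=
  (1, L) :: smulC (-1) ((splits L).flatMap fun s =>
    (expW s.1.reverse).flatMap fun x => (st x.2 s.2).flatMap fun w =>
      if wt w ≤ 6 then smulC x.1 (halfW w) else [])

/-- Basic relations. -/
inductive Base where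
  | sh (u v : List ℤ)
  | dist (L : List ℤ)

def Base.ok : Base → Bool
  | .sh u v => okI u && okI v && decide (u ≠ [])
  | .dist L => L.all fun a => decide (0 < a)

def Base.rel : Base → Comb
  | .sh u v => relSh u v
  | .dist L => relDist L

/-- A certificate entry: coefficient, word, basic relation (the relation is multiplied by the word). -/
structure Entry where
  c : ℤ
  w : List ℤ
  b : Base

def Entry.comb (e : Entry) : Comb := smulC e.c (mulC e.w e.b.rel)

/-! ### Coding words -/

def code (w : List ℤ) : ℕ := w.foldl (fun n a => 13 * n + (a + 6).toNat + 1) 0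

end Pool.Agent.H97.Sun
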