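import Mathlib

namespace Pool.Agent.H97.Sun.EI

open Finset

set_option linter.unusedSectionVars false

variable {K : Type} [Field K] [CharZero K]

/-- Harmonic number of order two. -/
noncomputable def H2 (n : ℕ) : K := ∑ k ∈ range n, 1 / ((k : K) + 1) ^ 2

/-- `h_N(k) = (N-k)! (N+k)! / N!^2`. -/
noncomputable def h (N k : ℕ) : K := ((N - k).factorial : K) * (N + k).factorial / (N.factorial : K) ^ 2

/-- `w_N(k) = ((k-1)! (N-k)! / N!)^2`. -/
noncomputable def w (N k : ℕ) : K := (((k - 1).factorial : K) * (N - k).factorial / N.factorial) ^ 2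

theorem sum_Icc_one (F : ℕ → K) (N : ℕ) : ∑ k ∈ Icc 1 N, F k = ∑ j ∈ range N, F (j + 1) := by
  rw [Finset.range_eq_Ico, Finset.sum_Ico_add' F 0 N 1]
  rfl

theorem H2_succ (n : ℕ) : (H2 (n + 1) : K) = H2 n + 1 / ((n : K) + 1) ^ 2 := by
  unfold H2
  rw [Finset.sum_range_succ]

theorem H2_zero : (H2 0 : K) = 0 := by simp [H2]

theorem cast_succ_ne (n : ℕ) : ((n : K) + 1) ≠ 0 := by exact_mod_cast Nat.succ_ne_zero n

theorem cast_ne (n : ℕ) : ((n + 1 : ℕ) : K) ≠ 0 := Nat.cast_ne_zero.mpr (Nat.succ_ne_zero n)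

theorem fac_ne (n : ℕ) : ((n.factorial : ℕ) : K) ≠ 0 := by
  exact_mod_cast Nat.factorial_ne_zero n

theorem C_eq (n : ℕ) : (((2 * n).choose n : ℕ) : K) * ((n.factorial : ℕ) : K) ^ 2 =
    ((2 * n).factorial : K) := by
  have := Nat.choose_mul_factorial_mul_factorial (show n ≤ 2 * n by omega)
  have h2 : 2 * n - n = n := by omega
  rw [h2] at this
  rw [← this]
  push_cast
  ring

theorem C_succ (n : ℕ) : (((2 * (n + 1)).choose (n + 1) : ℕ) : K) * (n + 1) =
    2 * (2 * n + 1) * (((2 * n).choose n : ℕ) : K) := by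
  have h1 := C_eq (K := K) (n + 1)
  have h2 := C_eq (K := K) n
  have e : 2 * (n + 1) = (2 * n + 1) + 1 := by ring
  have h3 : (((2 * (n + 1)).factorial : ℕ) : K) = (2 * n + 2) * ((2 * n + 1) * ((2 * n).factorial : ℕ)) := by
    rw [e, Nat.factorial_succ, Nat.factorial_succ]
    push_cast
    ring
  have h4 : (((n + 1).factorial : ℕ) : K) = (n + 1) * (n.factorial : ℕ) := by
    rw [Nat.factorial_succ]; push_cast; ring
  rw [h3, h4] at h1
  rw [← h2] at h1
  have hn := cast_succ_ne (K := K) n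
  have hf := fac_ne (K := K) n
  have : (((n.factorial : ℕ) : K) ^ 2 * (n + 1)) *
      ((((2 * (n + 1)).choose (n + 1) : ℕ) : K) * (n + 1) -
        2 * (2 * n + 1) * (((2 * n).choose n : ℕ) : K)) = 0 := by
    linear_combination h1
  rcases mul_eq_zero.mp this with h | h
  · exact absurd h (mul_ne_zero (pow_ne_zero 2 hf) hn)
  · linear_combination h

theorem h_zero (n : ℕ) : (h n 0 : K) = 1 := by
  unfold h
  have hf := fac_ne (K := K) n
  simp
  field_simp

theorem h_self (n : ℕ) : (h n n : K) = (((2 * n).choose n : ℕ) : K) := by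
  unfold h
  have hf := fac_ne (K := K) n
  rw [Nat.sub_self, Nat.factorial_zero, ← two_mul, ← C_eq]
  push_cast
  field_simp

/-- `(M - k) h_M(k+1) = (M + 1 + k) h_M(k)` for `k < M`. -/
theorem h_step (k d : ℕ) : ((d : K) + 1) * h (k + 1 + d) (k + 1) =
    ((k + 1 + d : ℕ) + 1 + k : K) * h (k + 1 + d) k := by
  unfold h
  have e1 : k + 1 + d - (k + 1) = d := by omega
  have e2 : k + 1 + d - k = d + 1 := by omega
  have e3 : k + 1 + d + (k + 1) = (k + 1 + d + k) + 1 := by omega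
  rw [e1, e2, e3, Nat.factorial_succ, Nat.factorial_succ]
  push_cast
  ring

/-- recurrence in `N`. -/
theorem h_rec (k d : ℕ) : (h (k + 1 + d + 1) (k + 1) : K) =
    h (k + 1 + d) (k + 1) * (((k + 1 + d + 1 : ℕ) : K) ^ 2 - ((k + 1 : ℕ) : K) ^ 2) /
      ((k + 1 + d + 1 : ℕ) : K) ^ 2 := by
  unfold h
  have e1 : k + 1 + d - (k + 1) = d := by omega
  have e2 : k + 1 + d + 1 - (k + 1) = d + 1 := by omega
  have e3 : k + 1 + d + 1 + (k + 1) = (k + 1 + d + (k + 1)) + 1 := by omega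
  rw [e1, e2, e3, Nat.factorial_succ, Nat.factorial_succ (k + 1 + d + (k + 1)),
    Nat.factorial_succ (k + 1 + d)]
  have hf := fac_ne (K := K) (k + 1 + d)
  have hn : ((k + 1 + d + 1 : ℕ) : K) ≠ 0 := cast_ne _
  push_cast at hn ⊢
  field_simp
  ring

theorem sum_k_h (M K' : ℕ) (hK : K' ≤ M) : ∑ k ∈ range K', 2 * (k : K) * h M k =
    ((M : K) + 1 - K') * h M K' - (M + 1) := by
  induction K' with
  | zero => simp [h_zero]
  | succ k ih =>
    obtain ⟨d, rfl⟩ := Nat.exists_eq_add_of_le hK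
    rw [Finset.sum_range_succ, ih (by omega)]
    have := h_step (K := K) k d
    push_cast at this ⊢
    linear_combination -this

/-- `2 ∑_{k ≤ n} k h_n(k) = (2n+1) C_n - (n+1)`. -/
theorem sum_k_h' (n : ℕ) : 2 * ∑ j ∈ range n, (((j + 1 : ℕ) : K)) * h n (j + 1) =
    (2 * n + 1) * (((2 * n).choose n : ℕ) : K) - (n + 1) := by
  have h1 := sum_k_h (K := K) n n le_rfl
  have h2 : ∑ k ∈ range (n + 1), 2 * (k : K) * h n k =
      2 * ∑ j ∈ range n, (((j + 1 : ℕ) : K)) * h n (j + 1) := by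
    rw [Finset.sum_range_succ', Finset.mul_sum]
    simp only [Nat.cast_zero, mul_zero, zero_mul, add_zero, mul_assoc]
  rw [← h2, Finset.sum_range_succ, h1, h_self]
  ring

noncomputable def G1 (n : ℕ) : K := ∑ j ∈ range n, h n (j + 1) / ((j + 1 : ℕ) : K)

noncomputable def G3 (n : ℕ) : K := ∑ j ∈ range n, h n (j + 1) / ((j + 1 : ℕ) : K) ^ 3

theorem h_rec' (n j : ℕ) (hj : j < n) : (h (n + 1) (j + 1) : K) =
    h n (j + 1) - h n (j + 1) * ((j + 1 : ℕ) : K) ^ 2 / ((n + 1 : ℕ) : K) ^ 2 := by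
  obtain ⟨d, rfl⟩ := Nat.exists_eq_add_of_le (show j + 1 ≤ n from hj)
  rw [h_rec]
  have hn : ((j + 1 + d + 1 : ℕ) : K) ≠ 0 := cast_ne _
  field_simp

theorem G1_succ (n : ℕ) : (G1 (n + 1) : K) = G1 n +
    (3 * (((2 * (n + 1)).choose (n + 1) : ℕ) : K) + 2) / (4 * (n + 1)) := by
  have hn := cast_succ_ne (K := K) n
  have e : (G1 (n + 1) : K) = G1 n - (∑ j ∈ range n, (((j + 1 : ℕ) : K)) * h n (j + 1)) /
      ((n + 1 : ℕ) : K) ^ 2 + (((2 * (n + 1)).choose (n + 1) : ℕ) : K) / ((n + 1 : ℕ) : K) := by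
    unfold G1
    rw [Finset.sum_range_succ, h_self, Finset.sum_div, ← Finset.sum_sub_distrib]
    congr 1
    refine sum_congr rfl fun j hj => ?_
    rw [mem_range] at hj
    have hj' : ((j + 1 : ℕ) : K) ≠ 0 := cast_ne _
    have hn' : ((n + 1 : ℕ) : K) ≠ 0 := cast_ne _
    rw [h_rec' n j hj]
    field_simp
  have h1 := sum_k_h' (K := K) n
  have h2 := C_succ (K := K) n
  rw [e]
  generalize (∑ j ∈ range n, (((j + 1 : ℕ) : K)) * h n (j + 1)) = S at h1 ⊢
  have hS : S = ((2 * n + 1) * (((2 * n).choose n : ℕ) : K) - (n + 1)) / 2 := by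
    rw [← h1]; ring
  rw [hS]
  push_cast
  field_simp
  linear_combination 2 * h2

theorem G3_succ (n : ℕ) : (G3 (n + 1) : K) = G3 n - G1 n / ((n : K) + 1) ^ 2 +
    (((2 * (n + 1)).choose (n + 1) : ℕ) : K) / ((n : K) + 1) ^ 3 := by
  have hn := cast_succ_ne (K := K) n
  unfold G3 G1
  rw [Finset.sum_range_succ, h_self, Finset.sum_div, ← Finset.sum_sub_distrib]
  push_cast
  congr 1
  refine sum_congr rfl fun j hj => ?_
  rw [mem_range] at hj
  have hj' : ((j : K) + 1) ≠ 0 := cast_succ_ne j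
  rw [h_rec' n j hj]
  push_cast
  field_simp

theorem EI1 (N : ℕ) :
    ∑ k ∈ Icc 1 N, ((2 * k).choose k : K) / k * (7 / (k : K) ^ 2 + 3 * H2 (k - 1)) =
      4 * ∑ k ∈ Icc 1 N, h N k * (1 / (k : K) ^ 3 + H2 N / k) -
        2 * ∑ k ∈ Icc 1 N, (H2 k : K) / k := by
  have e : ∑ k ∈ Icc 1 N, h N k * (1 / (k : K) ^ 3 + H2 N / k) = G3 N + H2 N * G1 N := by
    rw [sum_Icc_one]
    unfold G3 G1
    rw [Finset.mul_sum, ← Finset.sum_add_distrib]
    refine sum_congr rfl fun j _ => ?_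
    ring
  rw [e, sum_Icc_one, sum_Icc_one]
  induction N with
  | zero => simp [G1, G3]
  | succ n ih =>
    have ih' := ih (by
      rw [sum_Icc_one]
      unfold G3 G1
      rw [Finset.mul_sum, ← Finset.sum_add_distrib]
      refine sum_congr rfl fun j _ => ?_
      ring)
    rw [Finset.sum_range_succ, ih', Finset.sum_range_succ, G3_succ, G1_succ, H2_succ,
      Nat.add_sub_cancel]
    have hn := cast_succ_ne (K := K) n
    push_cast
    field_simp
    ring

theorem w_rec1 (j d : ℕ) : (w (j + 1 + d + 1) (j + 1) : K) =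
    w (j + 1 + d) (j + 1) * ((d : K) + 1) ^ 2 / ((j + 1 + d + 1 : ℕ) : K) ^ 2 := by
  unfold w
  have e1 : j + 1 + d - (j + 1) = d := by omega
  have e2 : j + 1 + d + 1 - (j + 1) = d + 1 := by omega
  rw [e1, e2, Nat.factorial_succ d, Nat.factorial_succ (j + 1 + d)]
  have hf := fac_ne (K := K) (j + 1 + d)
  have hn : ((j + 1 + d + 1 : ℕ) : K) ≠ 0 := cast_ne _
  push_cast at hn ⊢
  field_simp

theorem w_rec2 (j d : ℕ) : (w (j + 1 + d + 1) (j + 1 + 1) : K) =
    w (j + 1 + d) (j + 1) * ((j : K) + 1) ^ 2 / ((j + 1 + d + 1 : ℕ) : K) ^ 2 := by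
  unfold w
  have e1 : j + 1 + d - (j + 1) = d := by omega
  have e2 : j + 1 + d + 1 - (j + 1 + 1) = d := by omega
  have e3 : j + 1 + 1 - 1 = j + 1 := by omega
  have e4 : j + 1 - 1 = j := by omega
  rw [e1, e2, e3, e4, Nat.factorial_succ j, Nat.factorial_succ (j + 1 + d)]
  have hf := fac_ne (K := K) (j + 1 + d)
  have hn : ((j + 1 + d + 1 : ℕ) : K) ≠ 0 := cast_ne _
  push_cast at hn ⊢
  field_simp

theorem w_one (n : ℕ) : (w (n + 1) 1 : K) = 1 / ((n : K) + 1) ^ 2 := by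
  unfold w
  have hf := fac_ne (K := K) n
  have hn := cast_succ_ne (K := K) n
  rw [Nat.sub_self, Nat.add_sub_cancel, Nat.factorial_succ, Nat.factorial_zero]
  push_cast
  field_simp

theorem w_last (n : ℕ) : (w (n + 1) (n + 1) : K) = 1 / ((n : K) + 1) ^ 2 := by
  unfold w
  have hf := fac_ne (K := K) n
  have hn := cast_succ_ne (K := K) n
  rw [Nat.sub_self, Nat.add_sub_cancel, Nat.factorial_succ, Nat.factorial_zero]
  push_cast
  field_simp

noncomputable def D (n k : ℕ) : K := H2 (k - 1) + H2 (n - k)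

noncomputable def S0 (n : ℕ) : K := ∑ j ∈ range n, w n (j + 1)

noncomputable def S1 (n : ℕ) : K := ∑ j ∈ range n, w n (j + 1) * D n (j + 1)

noncomputable def g (n k : ℕ) : K := (n : K) * (2 * k - n - 1)

/-- Telescoping: sum of pairs. -/
theorem sum_pairs (F : ℕ → K) (n : ℕ) :
    2 * ∑ j ∈ range (n + 1), F (j + 1) =
      ∑ j ∈ range n, (F (j + 1) + F (j + 1 + 1)) + F 1 + F (n + 1) := by
  induction n with
  | zero => simp; ring
  | succ n ih =>
    rw [Finset.sum_range_succ, mul_add, ih, Finset.sum_range_succ _ n]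
    ring

theorem sum_tele (F : ℕ → K) (n : ℕ) :
    ∑ j ∈ range n, (F (j + 1 + 1) - F (j + 1)) = F (n + 1) - F 1 := by
  induction n with
  | zero => simp
  | succ n ih => rw [Finset.sum_range_succ, ih]; ring

theorem R0 (n : ℕ) : 2 * ((n : K) + 1) * (2 * (n + 1) + 1) * S0 (n + 1) -
    ((n : K) + 1) ^ 2 * S0 n = 6 := by
  have hn := cast_succ_ne (K := K) n
  have h1 := sum_pairs (K := K) (w (n + 1)) n
  have h2 := sum_tele (K := K) (fun k => w (n + 1) k * g (n + 1) k) n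
  have h3 : ∀ j ∈ range n, ((n : K) + 1) * (2 * (n + 1) + 1) * (w (n + 1) (j + 1) + w (n + 1) (j + 1 + 1)) =
      (w (n + 1) (j + 1 + 1) * g (n + 1) (j + 1 + 1) - w (n + 1) (j + 1) * g (n + 1) (j + 1)) +
        ((n : K) + 1) ^ 2 * w n (j + 1) := by
    intro j hj
    rw [mem_range] at hj
    obtain ⟨d, rfl⟩ := Nat.exists_eq_add_of_le (show j + 1 ≤ n from hj)
    rw [w_rec1, w_rec2]
    unfold g
    push_cast at hn ⊢
    field_simp
    ring
  have h4 : ((n : K) + 1) * (2 * (n + 1) + 1) *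
      ∑ j ∈ range n, (w (n + 1) (j + 1) + w (n + 1) (j + 1 + 1)) =
      ∑ j ∈ range n, (w (n + 1) (j + 1 + 1) * g (n + 1) (j + 1 + 1) - w (n + 1) (j + 1) * g (n + 1) (j + 1)) +
        ((n : K) + 1) ^ 2 * ∑ j ∈ range n, w n (j + 1) := by
    rw [Finset.mul_sum, Finset.mul_sum, ← Finset.sum_add_distrib]
    exact sum_congr rfl h3
  rw [h2] at h4
  have h5 : (S0 (n + 1) : K) = ∑ j ∈ range (n + 1), w (n + 1) (j + 1) := rfl
  have h6 : (S0 n : K) = ∑ j ∈ range n, w n (j + 1) := rfl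
  rw [← h5] at h1
  rw [← h6] at h4
  rw [w_one, w_last] at h1
  rw [w_one, w_last] at h4
  unfold g at h4
  push_cast at h4
  have h8 : 2 * ((n : K) + 1) * (2 * (n + 1) + 1) * S0 (n + 1) =
      ((n : K) + 1) * (2 * (n + 1) + 1) *
        ∑ j ∈ range n, (w (n + 1) (j + 1) + w (n + 1) (j + 1 + 1)) +
      ((n : K) + 1) * (2 * (n + 1) + 1) * (1 / ((n : K) + 1) ^ 2 + 1 / ((n : K) + 1) ^ 2) := by
    linear_combination ((n : K) + 1) * (2 * (n + 1) + 1) * h1
  rw [h8, h4]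
  field_simp
  ring

theorem D_rec1 (j d : ℕ) : (D (j + 1 + d + 1) (j + 1) : K) =
    D (j + 1 + d) (j + 1) + 1 / ((d : K) + 1) ^ 2 := by
  unfold D
  have e1 : j + 1 + d - (j + 1) = d := by omega
  have e2 : j + 1 + d + 1 - (j + 1) = d + 1 := by omega
  rw [e1, e2, H2_succ]
  ring

theorem D_rec2 (j d : ℕ) : (D (j + 1 + d + 1) (j + 1 + 1) : K) =
    D (j + 1 + d) (j + 1) + 1 / ((j : K) + 1) ^ 2 := by
  unfold D
  have e1 : j + 1 + d - (j + 1) = d := by omega
  have e2 : j + 1 + d + 1 - (j + 1 + 1) = d := by omega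
  have e3 : j + 1 + 1 - 1 = j + 1 := by omega
  have e4 : j + 1 - 1 = j := by omega
  rw [e1, e2, e3, e4, H2_succ]
  ring

theorem D_one (n : ℕ) : (D (n + 1) 1 : K) = H2 n := by
  unfold D
  simp [H2_zero]

theorem D_last (n : ℕ) : (D (n + 1) (n + 1) : K) = H2 n := by
  unfold D
  simp [H2_zero]

theorem R1 (n : ℕ) : 2 * ((n : K) + 1) * (2 * (n + 1) + 1) * S1 (n + 1) -
    ((n : K) + 1) ^ 2 * S1 n - 4 * S0 n = 6 * H2 n := by
  have hn := cast_succ_ne (K := K) n
  have h1 := sum_pairs (K := K) (fun k => w (n + 1) k * D (n + 1) k) n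
  have h2 := sum_tele (K := K) (fun k => w (n + 1) k * D (n + 1) k * g (n + 1) k) n
  have h3 : ∀ j ∈ range n, ((n : K) + 1) * (2 * (n + 1) + 1) *
      (w (n + 1) (j + 1) * D (n + 1) (j + 1) + w (n + 1) (j + 1 + 1) * D (n + 1) (j + 1 + 1)) =
      (w (n + 1) (j + 1 + 1) * D (n + 1) (j + 1 + 1) * g (n + 1) (j + 1 + 1) -
        w (n + 1) (j + 1) * D (n + 1) (j + 1) * g (n + 1) (j + 1)) +
        (((n : K) + 1) ^ 2 * (w n (j + 1) * D n (j + 1)) + 4 * w n (j + 1)) := by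
    intro j hj
    rw [mem_range] at hj
    obtain ⟨d, rfl⟩ := Nat.exists_eq_add_of_le (show j + 1 ≤ n from hj)
    have hd := cast_succ_ne (K := K) d
    have hj := cast_succ_ne (K := K) j
    rw [w_rec1, w_rec2, D_rec1, D_rec2]
    unfold g
    push_cast at hn ⊢
    field_simp
    ring
  have h4 : ((n : K) + 1) * (2 * (n + 1) + 1) *
      ∑ j ∈ range n, (w (n + 1) (j + 1) * D (n + 1) (j + 1) +
        w (n + 1) (j + 1 + 1) * D (n + 1) (j + 1 + 1)) =
      ∑ j ∈ range n, (w (n + 1) (j + 1 + 1) * D (n + 1) (j + 1 + 1) * g (n + 1) (j + 1 + 1) -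
        w (n + 1) (j + 1) * D (n + 1) (j + 1) * g (n + 1) (j + 1)) +
        (((n : K) + 1) ^ 2 * (∑ j ∈ range n, w n (j + 1) * D n (j + 1)) +
          4 * ∑ j ∈ range n, w n (j + 1)) := by
    rw [Finset.mul_sum, Finset.mul_sum, Finset.mul_sum, ← Finset.sum_add_distrib,
      ← Finset.sum_add_distrib]
    exact sum_congr rfl h3
  rw [h2] at h4
  have h5 : (S1 (n + 1) : K) = ∑ j ∈ range (n + 1), w (n + 1) (j + 1) * D (n + 1) (j + 1) := rfl
  have h6 : (S1 n : K) = ∑ j ∈ range n, w n (j + 1) * D n (j + 1) := rfl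
  have h6' : (S0 n : K) = ∑ j ∈ range n, w n (j + 1) := rfl
  rw [← h5] at h1
  rw [← h6, ← h6'] at h4
  rw [w_one, w_last, D_one, D_last] at h1
  rw [w_one, w_last, D_one, D_last] at h4
  unfold g at h4
  push_cast at h4
  have h8 : 2 * ((n : K) + 1) * (2 * (n + 1) + 1) * S1 (n + 1) =
      ((n : K) + 1) * (2 * (n + 1) + 1) *
        ∑ j ∈ range n, (w (n + 1) (j + 1) * D (n + 1) (j + 1) +
          w (n + 1) (j + 1 + 1) * D (n + 1) (j + 1 + 1)) +
      ((n : K) + 1) * (2 * (n + 1) + 1) *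
        (1 / ((n : K) + 1) ^ 2 * H2 n + 1 / ((n : K) + 1) ^ 2 * H2 n) := by
    linear_combination ((n : K) + 1) * (2 * (n + 1) + 1) * h1
  rw [h8, h4]
  field_simp
  ring

theorem EI2 (N : ℕ) :
    ∑ k ∈ Icc 1 N, ((2 * k).choose k : K) / k * (4 / (k : K) ^ 2 + 3 * H2 (k - 1)) =
      ((2 * N + 1 : ℕ) : K) * ((2 * N).choose N : K) / 3 *
        ∑ k ∈ Icc 1 N, w N k * (4 * H2 N - H2 (k - 1) - H2 (N - k)) := by
  have e : ∀ N : ℕ, ∑ k ∈ Icc 1 N, w N k * (4 * H2 N - H2 (k - 1) - H2 (N - k)) =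
      4 * H2 N * (S0 N : K) - S1 N := by
    intro N
    rw [sum_Icc_one]
    unfold S0 S1 D
    rw [Finset.mul_sum, ← Finset.sum_sub_distrib]
    refine sum_congr rfl fun j _ => ?_
    ring
  rw [e, sum_Icc_one]
  induction N with
  | zero => simp [S0, S1]
  | succ n ih =>
    have hn := cast_succ_ne (K := K) n
    have h0 := R0 (K := K) n
    have h1 := R1 (K := K) n
    have hC := C_succ (K := K) n
    rw [Finset.sum_range_succ, ih, H2_succ, Nat.add_sub_cancel]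
    push_cast at *
    generalize (((2 * (n + 1)).choose (n + 1) : ℕ) : K) = C1 at *
    generalize (((2 * n).choose n : ℕ) : K) = C0 at *
    generalize (S0 (n + 1) : K) = s0' at *
    generalize (S1 (n + 1) : K) = s1' at *
    generalize (S0 n : K) = s0 at *
    generalize (S1 n : K) = s1 at *
    generalize (H2 n : K) = H at *
    have hC' : C1 = 2 * (2 * n + 1) * C0 / (n + 1) := by
      field_simp
      linear_combination hC
    rw [hC']
    field_simp
    linear_combination (-(2 * (n : K) + 1) * C0 * 4 * (H * (n + 1) ^ 2 + 1)) * h0 +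
      (2 * (n : K) + 1) * C0 * (n + 1) ^ 2 * h1

end Pool.Agent.H97.Sun.EI
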