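import Pool.Agent.H97.Sun.EI

/-! The exact identity at `N = p - 1`, in terms of `x_k = p / k`. -/

namespace Pool.Agent.H97.Sun

open Finset

/-- `∏_{j < k} (1 + x_j) ∏_{j ≤ k} g_j` at `k = n + 1`. -/
def VV {S : Type} [CommRing S] (x g : ℕ → S) (n : ℕ) : S :=
  (∏ j ∈ range n, (1 + x (j + 1))) * ∏ j ∈ range (n + 1), g (j + 1)

/-- The main expression. -/
def LL {S : Type} [CommRing S] (p : ℕ) (x g : ℕ → S) : S :=
  36 * (∑ k ∈ range (p - 1), x (k + 1) ^ 4 * (-1) ^ (k + 1) * VV x g k +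
      (∑ j ∈ range (p - 1), x (j + 1) ^ 2) *
        ∑ k ∈ range (p - 1), x (k + 1) ^ 2 * (-1) ^ (k + 1) * VV x g k) -
    18 * ∑ k ∈ range (p - 1), x (k + 1) * ∑ j ∈ range (k + 1), x (j + 1) ^ 2 -
    3 * (∏ j ∈ range (p - 1), (1 + x (j + 1))) *
      ∑ k ∈ range (p - 1), x (k + 1) ^ 2 * (∏ j ∈ range (k + 1), g (j + 1)) ^ 2 *
        (3 * (∑ j ∈ range (p - 1), x (j + 1) ^ 2) +
          (-(∑ j ∈ range k, x (j + 1) ^ 2) + ∑ j ∈ range (k + 1), x (p - (j + 1)) ^ 2)) +
    54 * ∑ j ∈ range (p - 1), x (j + 1) + 13 * ∑ j ∈ range (p - 1), x (j + 1) ^ 3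

theorem LL_map {S R : Type} [CommRing S] [CommRing R] (φ : S →+* R) (p : ℕ) (x g : ℕ → S) :
    φ (LL p x g) = LL p (fun k => φ (x k)) (fun k => φ (g k)) := by
  simp only [LL, VV, map_add, map_sub, map_mul, map_sum, map_prod, map_pow, map_neg, map_one,
    map_ofNat]

theorem prod_congr' {S : Type} [CommRing S] (n : ℕ) (f g : ℕ → S) (h : ∀ j < n, f j = g j) :
    ∏ j ∈ range n, f j = ∏ j ∈ range n, g j :=
  prod_congr rfl fun j hj => h j (mem_range.mp hj)

theorem sum_congr' {S : Type} [CommRing S] (n : ℕ) (f g : ℕ → S) (h : ∀ j < n, f j = g j) :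
    ∑ j ∈ range n, f j = ∑ j ∈ range n, g j :=
  sum_congr rfl fun j hj => h j (mem_range.mp hj)

theorem LL_congr {S : Type} [CommRing S] (p : ℕ) (x g x' g' : ℕ → S)
    (hx : ∀ k, 1 ≤ k → k < p → x k = x' k) (hg : ∀ k, 1 ≤ k → k < p → g k = g' k) :
    LL p x g = LL p x' g' := by
  have h1 : ∀ n, n ≤ p - 1 → ∑ j ∈ range n, x (j + 1) ^ 2 = ∑ j ∈ range n, x' (j + 1) ^ 2 :=
    fun n hn => sum_congr' n _ _ fun j hj => by rw [hx (j + 1) (by omega) (by omega)]
  have h2 : ∀ n, n ≤ p - 1 → ∏ j ∈ range n, (1 + x (j + 1)) = ∏ j ∈ range n, (1 + x' (j + 1)) :=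
    fun n hn => prod_congr' n _ _ fun j hj => by rw [hx (j + 1) (by omega) (by omega)]
  have h3 : ∀ n, n ≤ p - 1 → ∏ j ∈ range n, g (j + 1) = ∏ j ∈ range n, g' (j + 1) :=
    fun n hn => prod_congr' n _ _ fun j hj => by rw [hg (j + 1) (by omega) (by omega)]
  have h4 : ∀ n, n ≤ p - 1 →
      ∑ j ∈ range n, x (p - (j + 1)) ^ 2 = ∑ j ∈ range n, x' (p - (j + 1)) ^ 2 :=
    fun n hn => sum_congr' n _ _ fun j hj => by rw [hx (p - (j + 1)) (by omega) (by omega)]
  have h5 : ∀ n, n < p - 1 → VV x g n = VV x' g' n := fun n hn => by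
    unfold VV; rw [h2 n (by omega), h3 (n + 1) (by omega)]
  unfold LL
  rw [h1 _ le_rfl, h2 _ le_rfl]
  congr 1
  · congr 1
    · congr 1
      · congr 1
        · congr 1
          congr 1
          · exact sum_congr' _ _ _ fun k hk => by
              rw [hx (k + 1) (by omega) (by omega), h5 k hk]
          · congr 1
            exact sum_congr' _ _ _ fun k hk => by
              rw [hx (k + 1) (by omega) (by omega), h5 k hk]
        · congr 1
          exact sum_congr' _ _ _ fun k hk => by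
              rw [hx (k + 1) (by omega) (by omega), h1 (k + 1) (by omega)]
      · congr 1
        exact sum_congr' _ _ _ fun k hk => by
          rw [hx (k + 1) (by omega) (by omega), h1 k (by omega), h3 (k + 1) (by omega),
            h4 (k + 1) (by omega)]
    · congr 1
      exact sum_congr' _ _ _ fun k hk => by rw [hx (k + 1) (by omega) (by omega)]
  · congr 1
    exact sum_congr' _ _ _ fun k hk => by rw [hx (k + 1) (by omega) (by omega)]

variable {K : Type} [Field K] [CharZero K]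

theorem fact_ne (n : ℕ) : ((n.factorial : ℕ) : K) ≠ 0 := by
  exact_mod_cast Nat.factorial_ne_zero n

omit [CharZero K] in
theorem inv_form (a b : K) (hb : b ≠ 0) : (1 - a / b)⁻¹ = -b / (a - b) := by
  have h : 1 - a / b = -(a - b) / b := by
    field_simp
    ring
  rw [h, inv_div, neg_div, div_neg]

/-- `h` in product form. -/
theorem h_prod (N n : ℕ) (hn : n < N) :
    (EI.h N (n + 1) : K) = (-1) ^ (n + 1) * (((N + 1 : ℕ) : K) / ((n + 1 : ℕ) : K)) *
      VV (fun k => ((N + 1 : ℕ) : K) / (k : K)) (fun k => (1 - ((N + 1 : ℕ) : K) / (k : K))⁻¹) n := by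
  induction n with
  | zero =>
    obtain ⟨M, rfl⟩ : ∃ M, N = M + 1 := ⟨N - 1, by omega⟩
    unfold EI.h VV
    simp only [range_zero, prod_empty, zero_add, prod_range_one, Nat.cast_one, div_one, one_mul,
      pow_one]
    rw [show M + 1 - 1 = M by omega, Nat.factorial_succ (M + 1), Nat.factorial_succ M]
    have h1 : ((M : ℕ) : K) + 1 ≠ 0 := by exact_mod_cast Nat.succ_ne_zero M
    have h3 : (1 - ((M : K) + 1 + 1)) ≠ 0 := by
      intro h
      apply h1
      linear_combination -h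
    push_cast
    have h4 := fact_ne (K := K) M
    field_simp
    ring
  | succ n ih =>
    have ih' := ih (by omega)
    have key : (EI.h N (n + 2) : K) * ((N - (n + 1) : ℕ) : K) =
        EI.h N (n + 1) * ((N + n + 2 : ℕ) : K) := by
      obtain ⟨M, hM⟩ : ∃ M, N = M + (n + 2) := ⟨N - (n + 2), by omega⟩
      unfold EI.h
      have e1 : N - (n + 2) = M := by omega
      have e2 : N - (n + 1) = M + 1 := by omega
      have e3 : N + (n + 2) = (N + (n + 1)) + 1 := by omega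
      rw [e1, e2, e3, Nat.factorial_succ M, Nat.factorial_succ (N + (n + 1))]
      have h4 := fact_ne (K := K) N
      push_cast
      field_simp
      ring
    have hne : ((N - (n + 1) : ℕ) : K) ≠ 0 := by
      have : N - (n + 1) ≠ 0 := by omega
      exact_mod_cast this
    have hc : ((N - (n + 1) : ℕ) : K) = (N : K) - (n + 1) := by
      rw [Nat.cast_sub (by omega)]; push_cast; ring
    rw [hc] at key hne
    have hv : VV (fun k => ((N + 1 : ℕ) : K) / (k : K))
          (fun k => (1 - ((N + 1 : ℕ) : K) / (k : K))⁻¹) (n + 1) =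
        VV (fun k => ((N + 1 : ℕ) : K) / (k : K))
          (fun k => (1 - ((N + 1 : ℕ) : K) / (k : K))⁻¹) n *
          (1 + ((N + 1 : ℕ) : K) / ((n + 1 : ℕ) : K)) *
          (1 - ((N + 1 : ℕ) : K) / ((n + 1 + 1 : ℕ) : K))⁻¹ := by
      unfold VV
      rw [prod_range_succ (fun j => (1 + ((N + 1 : ℕ) : K) / ((j + 1 : ℕ) : K))) n,
        prod_range_succ _ (n + 1)]
      ring
    rw [hv]
    have h2 : ((n : K) + 1) ≠ 0 := by exact_mod_cast Nat.succ_ne_zero n
    have h2' : ((n : K) + 1 + 1) ≠ 0 := by exact_mod_cast Nat.succ_ne_zero (n + 1)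
    have h3 : (1 - ((N + 1 : ℕ) : K) / ((n + 1 + 1 : ℕ) : K)) ≠ 0 := by
      push_cast
      rw [sub_ne_zero]
      intro h
      rw [eq_div_iff h2'] at h
      apply hne
      linear_combination -h
    apply mul_right_cancel₀ hne
    rw [key, ih']
    generalize VV (fun k => ((N + 1 : ℕ) : K) / (k : K))
          (fun k => (1 - ((N + 1 : ℕ) : K) / (k : K))⁻¹) n = v at *
    rw [← sub_eq_zero]
    have h5 : (1 - ((N + 1 : ℕ) : K) / ((n + 1 + 1 : ℕ) : K))⁻¹ =
        -((n : K) + 1 + 1) / ((N : K) - (n + 1)) := by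
      have h6 := inv_form (((N + 1 : ℕ) : K)) (((n + 1 + 1 : ℕ) : K)) (by push_cast; exact h2')
      rw [h6]
      push_cast
      congr 1
      ring
    rw [h5]
    push_cast
    field_simp
    ring

/-- `w` in product form. -/
theorem w_prod (N n : ℕ) (hn : n < N) :
    (EI.w N (n + 1) : K) = (1 / ((n + 1 : ℕ) : K)) ^ 2 *
      (∏ j ∈ range (n + 1), (1 - ((N + 1 : ℕ) : K) / ((j + 1 : ℕ) : K))⁻¹) ^ 2 := by
  have hr : ∀ m, m < N → ((m.factorial : K) * ((N - (m + 1)).factorial : K) / (N.factorial : K)) =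
      (-1) ^ (m + 1) * (1 / ((m + 1 : ℕ) : K)) *
      (∏ j ∈ range (m + 1), (1 - ((N + 1 : ℕ) : K) / ((j + 1 : ℕ) : K))⁻¹) := by
    intro m
    induction m with
    | zero =>
      intro hm
      obtain ⟨M, rfl⟩ : ∃ M, N = M + 1 := ⟨N - 1, by omega⟩
      rw [show M + 1 - (0 + 1) = M by omega, Nat.factorial_succ M]
      have h1 : ((M : ℕ) : K) + 1 ≠ 0 := by exact_mod_cast Nat.succ_ne_zero M
      have h3 : (1 - ((M : K) + 1 + 1)) ≠ 0 := by
        intro h
        apply h1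
        linear_combination -h
      have h4 := fact_ne (K := K) M
      simp only [zero_add, prod_range_one, Nat.cast_one, div_one, pow_one, Nat.factorial_zero,
        one_mul, mul_one]
      push_cast
      field_simp
      ring
    | succ m ih =>
      intro hm
      have ih' := ih (by omega)
      rw [prod_range_succ]
      have h2 : ((m : K) + 1) ≠ 0 := by exact_mod_cast Nat.succ_ne_zero m
      have h2' : ((m : K) + 1 + 1) ≠ 0 := by exact_mod_cast Nat.succ_ne_zero (m + 1)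
      have hne : ((N - (m + 1) : ℕ) : K) ≠ 0 := by
        have : N - (m + 1) ≠ 0 := by omega
        exact_mod_cast this
      have hc : ((N - (m + 1) : ℕ) : K) = (N : K) - (m + 1) := by
        rw [Nat.cast_sub (by omega)]; push_cast; ring
      have key : (((m + 1).factorial : K) * ((N - (m + 1 + 1)).factorial : K) /
          (N.factorial : K)) * ((N - (m + 1) : ℕ) : K) =
          ((m.factorial : K) * ((N - (m + 1)).factorial : K) / (N.factorial : K)) *
            ((m : K) + 1) := by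
        obtain ⟨M, hM⟩ : ∃ M, N = M + (m + 2) := ⟨N - (m + 2), by omega⟩
        have e1 : N - (m + 1 + 1) = M := by omega
        have e2 : N - (m + 1) = M + 1 := by omega
        rw [e1, e2, Nat.factorial_succ M, Nat.factorial_succ m]
        have h4 := fact_ne (K := K) N
        push_cast
        field_simp
      rw [hc] at key hne
      apply mul_right_cancel₀ hne
      rw [key, ih']
      generalize (∏ j ∈ range (m + 1), (1 - ((N + 1 : ℕ) : K) / ((j + 1 : ℕ) : K))⁻¹) = v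
      have h5 : (1 - ((N + 1 : ℕ) : K) / ((m + 1 + 1 : ℕ) : K))⁻¹ =
          -((m : K) + 1 + 1) / ((N : K) - (m + 1)) := by
        have h6 := inv_form (((N + 1 : ℕ) : K)) (((m + 1 + 1 : ℕ) : K)) (by push_cast; exact h2')
        rw [h6]
        push_cast
        congr 1
        ring
      rw [h5]
      push_cast
      field_simp
      ring
  unfold EI.w
  rw [show n + 1 - 1 = n by omega, hr n hn, mul_pow, mul_pow, ← pow_mul, mul_comm (n + 1) 2,
    pow_mul]
  norm_num

/-- Products `∏ (1 + M / j)` are binomial coefficients. -/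
theorem prod_choose (M n : ℕ) :
    ∏ j ∈ range n, (1 + (M : K) / ((j + 1 : ℕ) : K)) = ((M + n).choose n : K) := by
  induction n with
  | zero => simp
  | succ n ih =>
    rw [prod_range_succ, ih]
    have h := Nat.add_one_mul_choose_eq (M + n) n
    have h' : ((M + n + 1 : ℕ) : K) * ((M + n).choose n : K) =
        ((M + (n + 1)).choose (n + 1) : K) * ((n + 1 : ℕ) : K) := by
      exact_mod_cast h
    have h2 : ((n + 1 : ℕ) : K) ≠ 0 := by exact_mod_cast Nat.succ_ne_zero n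
    apply mul_right_cancel₀ h2
    rw [← h', mul_assoc]
    have h3 : (1 + (M : K) / ((n + 1 : ℕ) : K)) * ((n + 1 : ℕ) : K) = ((M + n + 1 : ℕ) : K) := by
      rw [add_mul, div_mul_cancel₀ _ h2]
      push_cast
      ring
    rw [h3]
    ring

theorem centr (N : ℕ) :
    ((2 * N + 1 : ℕ) : K) * ((2 * N).choose N : K) = ((N + 1 : ℕ) : K) *
      ∏ j ∈ range N, (1 + ((N + 1 : ℕ) : K) / ((j + 1 : ℕ) : K)) := by
  rw [prod_choose (N + 1) N]
  have h := Nat.add_one_mul_choose_eq (2 * N) N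
  have h2 : (2 * N + 1).choose (N + 1) = (2 * N + 1).choose N := by
    rw [← Nat.choose_symm_of_eq_add (n := 2 * N + 1) (a := N + 1) (b := N) (by ring)]
  rw [h2] at h
  rw [show N + 1 + N = 2 * N + 1 by ring]
  have h3 : ((2 * N + 1 : ℕ) : K) * ((2 * N).choose N : K) =
      ((2 * N + 1).choose N : K) * ((N + 1 : ℕ) : K) := by exact_mod_cast h
  rw [h3]
  ring

theorem H2_reflect (N k : ℕ) (hk : k ≤ N) :
    (EI.H2 (N - k) : K) = EI.H2 N - ∑ j ∈ range k, 1 / (((N + 1 - (j + 1) : ℕ) : K)) ^ 2 := by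
  induction k with
  | zero => simp
  | succ k ih =>
    have ih' := ih (by omega)
    rw [sum_range_succ]
    have h1 : (EI.H2 (N - k) : K) = EI.H2 (N - (k + 1)) + 1 / ((N - k : ℕ) : K) ^ 2 := by
      obtain ⟨M, hM⟩ : ∃ M, N - k = M + 1 := ⟨N - k - 1, by omega⟩
      have h2 : N - (k + 1) = M := by omega
      rw [hM, h2]
      unfold EI.H2
      rw [sum_range_succ]
      push_cast
      ring
    have h3 : N + 1 - (k + 1) = N - k := by omega
    rw [h3]
    rw [ih'] at h1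
    linear_combination -h1

theorem sum_Icc (F : ℕ → K) (N : ℕ) : ∑ k ∈ Icc 1 N, F k = ∑ j ∈ range N, F (j + 1) :=
  EI.sum_Icc_one F N

/-- The exact identity. -/
theorem exact_id (N : ℕ) :
    LL (N + 1) (fun k => ((N + 1 : ℕ) : K) / (k : K))
      (fun k => (1 - ((N + 1 : ℕ) : K) / (k : K))⁻¹) =
    27 * ((N + 1 : ℕ) : K) ^ 3 * ∑ j ∈ range N, ((2 * (j + 1)).choose (j + 1) : K) /
        ((j + 1 : ℕ) : K) ^ 3 +
      54 * ((N + 1 : ℕ) : K) * ∑ j ∈ range N, 1 / ((j + 1 : ℕ) : K) +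
      13 * ((N + 1 : ℕ) : K) ^ 3 * ∑ j ∈ range N, 1 / ((j + 1 : ℕ) : K) ^ 3 := by
  have h1 := EI.EI1 (K := K) N
  have h2 := EI.EI2 (K := K) N
  rw [sum_Icc, sum_Icc, sum_Icc] at h1
  rw [sum_Icc, sum_Icc] at h2
  have hX : (3 : K) * ∑ j ∈ range N, ((2 * (j + 1)).choose (j + 1) : K) / ((j + 1 : ℕ) : K) ^ 3 =
      ∑ k ∈ range N, ((2 * (k + 1)).choose (k + 1) : K) / ((k + 1 : ℕ) : K) *
        (7 / ((k + 1 : ℕ) : K) ^ 2 + 3 * EI.H2 (k + 1 - 1)) -
      ∑ k ∈ range N, ((2 * (k + 1)).choose (k + 1) : K) / ((k + 1 : ℕ) : K) *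
        (4 / ((k + 1 : ℕ) : K) ^ 2 + 3 * EI.H2 (k + 1 - 1)) := by
    rw [mul_sum, ← sum_sub_distrib]
    refine sum_congr rfl fun k _ => ?_
    have h3 : ((k + 1 : ℕ) : K) ≠ 0 := by exact_mod_cast Nat.succ_ne_zero k
    field_simp
    ring
  rw [h1, h2, centr] at hX
  set P : K := ((N + 1 : ℕ) : K) with hP
  have hH2 : ∀ n, ∑ j ∈ range n, (P / ((j + 1 : ℕ) : K)) ^ 2 = P ^ 2 * EI.H2 n := by
    intro n
    unfold EI.H2
    rw [mul_sum]
    refine sum_congr rfl fun j _ => ?_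
    rw [div_pow, mul_one_div, Nat.cast_succ]
  have hA : ∑ k ∈ range N, (P / ((k + 1 : ℕ) : K)) ^ 4 * (-1) ^ (k + 1) *
        VV (fun k => P / (k : K)) (fun k => (1 - P / (k : K))⁻¹) k +
      P ^ 2 * EI.H2 N * ∑ k ∈ range N, (P / ((k + 1 : ℕ) : K)) ^ 2 * (-1) ^ (k + 1) *
        VV (fun k => P / (k : K)) (fun k => (1 - P / (k : K))⁻¹) k =
      P ^ 3 * ∑ j ∈ range N, EI.h N (j + 1) * (1 / ((j + 1 : ℕ) : K) ^ 3 +
        EI.H2 N / ((j + 1 : ℕ) : K)) := by
    rw [mul_sum, mul_sum, ← sum_add_distrib]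
    refine sum_congr rfl fun k hk => ?_
    rw [h_prod N k (mem_range.mp hk)]
    have h3 : ((k + 1 : ℕ) : K) ≠ 0 := by exact_mod_cast Nat.succ_ne_zero k
    rw [← hP]
    generalize VV (fun k => P / (k : K)) (fun k => (1 - P / (k : K))⁻¹) k = v
    field_simp
  have hC : ∑ k ∈ range N, (P / ((k + 1 : ℕ) : K)) ^ 2 *
        (∏ j ∈ range (k + 1), (1 - P / ((j + 1 : ℕ) : K))⁻¹) ^ 2 *
        (3 * (P ^ 2 * EI.H2 N) + (-(P ^ 2 * EI.H2 k) +
          ∑ j ∈ range (k + 1), (P / ((N + 1 - (j + 1) : ℕ) : K)) ^ 2)) =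
      P ^ 4 * ∑ j ∈ range N, EI.w N (j + 1) * (4 * EI.H2 N - EI.H2 (j + 1 - 1) -
        EI.H2 (N - (j + 1))) := by
    rw [mul_sum]
    refine sum_congr rfl fun k hk => ?_
    rw [w_prod N k (mem_range.mp hk), H2_reflect N (k + 1) (by have := mem_range.mp hk; omega)]
    have h4 : ∑ j ∈ range (k + 1), (P / ((N + 1 - (j + 1) : ℕ) : K)) ^ 2 =
        P ^ 2 * ∑ j ∈ range (k + 1), 1 / ((N + 1 - (j + 1) : ℕ) : K) ^ 2 := by
      rw [mul_sum]
      refine sum_congr rfl fun j _ => ?_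
      rw [div_pow, mul_one_div]
    rw [h4, ← hP, show k + 1 - 1 = k by omega]
    generalize (∏ j ∈ range (k + 1), (1 - P / ((j + 1 : ℕ) : K))⁻¹) = v
    generalize ∑ j ∈ range (k + 1), 1 / ((N + 1 - (j + 1) : ℕ) : K) ^ 2 = u
    rw [div_pow, one_div, inv_pow, div_eq_mul_inv]
    ring
  have hB : ∑ k ∈ range N, P / ((k + 1 : ℕ) : K) * (P ^ 2 * EI.H2 (k + 1)) =
      P ^ 3 * ∑ j ∈ range N, EI.H2 (j + 1) / ((j + 1 : ℕ) : K) := by
    rw [mul_sum]
    refine sum_congr rfl fun k _ => ?_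
    rw [div_mul_eq_mul_div, mul_div_assoc']
    congr 1
    ring
  have hD : ∑ j ∈ range N, P / ((j + 1 : ℕ) : K) = P * ∑ j ∈ range N, 1 / ((j + 1 : ℕ) : K) := by
    rw [mul_sum]
    exact sum_congr rfl fun j _ => by rw [mul_one_div]
  have hE : ∑ j ∈ range N, (P / ((j + 1 : ℕ) : K)) ^ 3 =
      P ^ 3 * ∑ j ∈ range N, 1 / ((j + 1 : ℕ) : K) ^ 3 := by
    rw [mul_sum]
    exact sum_congr rfl fun j _ => by rw [mul_one_div, div_pow]
  unfold LL
  simp only [Nat.add_sub_cancel, hH2]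
  rw [hA, hB, hC, hD, hE]
  linear_combination (-9 * P ^ 3) * hX

end Pool.Agent.H97.Sun
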