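import Pool.Agent.H97.Sun.Stuffle

namespace Pool.Agent.H97.Sun

open Finset

variable {R : Type} [CommRing R]

theorem sum_T (f : ℤ → ℕ → R) (L : List ℤ) (n : ℕ) :
    ∑ i ∈ range (n + 1), T f L i = A f L n := by
  cases L with
  | nil => simp [T, A]
  | cons a L =>
    rw [Finset.sum_range_succ']
    simp [T, A]

/-- Reversal of a nested sum. -/
theorem reversal (f : ℤ → ℕ → R) (p : ℕ) (U : List ℤ) (hU : U ≠ []) (H : ℕ → R) :
    ∑ i ∈ range p, T f U i * H (p - 1 - i) =
      B (fun a k => f a (p - k)) U.reverse H (p - 1) := by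
  rcases p with _ | q
  · induction U generalizing H with
    | nil => exact absurd rfl hU
    | cons u U' ih =>
      rw [List.reverse_cons, B_append]
      by_cases hU' : U' = []
      · subst hU'
        simp [B]
      · rw [← ih hU']
        simp
  induction U generalizing H with
  | nil => exact absurd rfl hU
  | cons u U' ih =>
    rw [List.reverse_cons, B_append]
    have key : ∀ m, m ≤ q → B (fun a k => f a (q + 1 - k)) [u] H (q - m) =
        ∑ i ∈ Ico m q, f u (i + 1) * H (q - (i + 1)) := by
      intro m hm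
      simp only [B]
      rw [← Finset.sum_range_reflect, Finset.sum_Ico_eq_sum_range]
      refine sum_congr rfl fun k hk => ?_
      rw [mem_range] at hk
      have e1 : q + 1 - (q - m - 1 - k + 1) = m + k + 1 := by omega
      have e2 : q - m - 1 - k = q - (m + k + 1) := by omega
      rw [e1, e2]
    have lhs : ∑ i ∈ range (q + 1), T f (u :: U') i * H (q + 1 - 1 - i) =
        ∑ i ∈ range q, f u (i + 1) * A f U' i * H (q - (i + 1)) := by
      rw [Finset.sum_range_succ']
      simp [T]
    rw [lhs]
    by_cases hU' : U' = []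
    · subst hU'
      have := key 0 (Nat.zero_le _)
      simp only [Nat.sub_zero] at this
      simp only [List.reverse_nil, B, Nat.add_sub_cancel, A, mul_one] at this ⊢
      rw [this, Finset.range_eq_Ico]
    · rw [← ih hU', Nat.add_sub_cancel]
      have : ∀ i ∈ range (q + 1), T f U' i * B (fun a k => f a (q + 1 - k)) [u] H (q - i) =
          ∑ j ∈ Ico i q, T f U' i * (f u (j + 1) * H (q - (j + 1))) := by
        intro i hi
        rw [mem_range] at hi
        rw [key i (by omega), Finset.mul_sum]
      rw [sum_congr rfl this, Finset.sum_range_succ, Finset.Ico_self, Finset.sum_empty, add_zero]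
      rw [Finset.range_eq_Ico, Finset.sum_Ico_Ico_comm]
      refine sum_congr rfl fun i hi => ?_
      rw [← sum_T, ← Finset.sum_mul, Finset.range_eq_Ico]
      ring

theorem pow_expand (s : ℕ) (x : R) (hx : x ^ 7 = 0) :
    x ^ s * (∑ j ∈ range 7, x ^ j) ^ s =
      ((List.range (7 - s)).map fun t => (((s + t - 1).choose t : ℕ) : R) * x ^ (s + t)).sum := by
  have hP : (1 - x) * (∑ j ∈ range 7, x ^ j) = 1 := by
    rw [mul_neg_geom_sum, hx, sub_zero]
  have main : ∀ s, s ≤ 6 → (1 - x) ^ s *
      ((List.range (7 - s)).map fun t => (((s + t - 1).choose t : ℕ) : R) * x ^ (s + t)).sum =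
        x ^ s := by
    intro s hs
    interval_cases s <;>
      simp only [List.range_succ, List.range_zero, List.map_append, List.map_cons, List.map_nil,
        List.sum_append, List.sum_cons, List.sum_nil, List.nil_append, Nat.reduceSub, Nat.reduceAdd,
        Nat.choose, Nat.cast_zero, Nat.cast_one, Nat.cast_ofNat]
    · norm_num
    · linear_combination (-1) * hx
    · linear_combination (-6 + 5 * x) * hx
    · linear_combination (-15 + 24 * x - 10 * x ^ 2) * hx
    · linear_combination (-20 + 45 * x - 36 * x ^ 2 + 10 * x ^ 3) * hx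
    · linear_combination (-15 + 40 * x - 45 * x ^ 2 + 24 * x ^ 3 - 5 * x ^ 4) * hx
    · linear_combination (-6 + 15 * x - 20 * x ^ 2 + 15 * x ^ 3 - 6 * x ^ 4 + x ^ 5) * hx
  by_cases hs : s ≤ 6
  · have h1 := main s hs
    generalize ((List.range (7 - s)).map fun t =>
      (((s + t - 1).choose t : ℕ) : R) * x ^ (s + t)).sum = Z at h1 ⊢
    have h2 : (∑ j ∈ range 7, x ^ j) ^ s * (1 - x) ^ s = 1 := by
      rw [← mul_pow, mul_comm, hP, one_pow]
    generalize (∑ j ∈ range 7, x ^ j) = P at h2 ⊢
    linear_combination Z * h2 - P ^ s * h1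
  · have h7 : x ^ s = 0 := by
      obtain ⟨d, rfl⟩ := Nat.exists_eq_add_of_le (show 7 ≤ s by omega)
      rw [pow_add, hx, zero_mul]
    have : 7 - s = 0 := by omega
    rw [h7, this]
    simp

theorem natAbs_up (a : ℤ) (t : ℕ) : (up a t).natAbs = a.natAbs + t := by
  unfold up; split_ifs with h <;> omega

theorem up_neg (a : ℤ) (t : ℕ) : up a t < 0 ↔ a < 0 := by
  unfold up; split_ifs with h <;> omega

theorem Ctx.I_reflect (C : Ctx R) (k : ℕ) (h1 : 1 ≤ k) (hk : k < C.p) :
    C.I (C.p - k) = - C.I k * ∑ j ∈ range 7, ((C.p : R) * C.I k) ^ j := by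
  have hx : ((C.p : R) * C.I k) ^ 7 = 0 := by rw [mul_pow, C.hnil, zero_mul]
  have hP : (1 - (C.p : R) * C.I k) * (∑ j ∈ range 7, ((C.p : R) * C.I k) ^ j) = 1 := by
    rw [mul_neg_geom_sum, hx, sub_zero]
  have e1 := C.hI k h1 hk
  have e2 := C.hI (C.p - k) (by omega) (by omega)
  rw [Nat.cast_sub hk.le] at e2
  generalize (∑ j ∈ range 7, ((C.p : R) * C.I k) ^ j) = P at hP ⊢
  -- (p - k) * (-I k * P) = 1
  have e3 : ((C.p : R) - k) * (-C.I k * P) = 1 := by
    linear_combination hP + P * e1
  linear_combination (-C.I k * P) * e2 - C.I (C.p - k) * e3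

theorem Ctx.sign_reflect (C : Ctx R) (k : ℕ) (hk : k < C.p) :
    ((-1 : R)) ^ (C.p - k) = -(-1) ^ k := by
  have hodd : Odd C.p := C.hp.odd_of_ne_two C.h2
  have h1 : ((-1 : R)) ^ (C.p - k) * (-1) ^ k = -1 := by
    rw [← pow_add, Nat.sub_add_cancel hk.le, hodd.neg_one_pow]
  have h2 : ((-1 : R) ^ k) * (-1) ^ k = 1 := by
    rw [← mul_pow]; simp
  linear_combination (-1) ^ k * h1 - (-1) ^ (C.p - k) * h2

/-- The expansion of a letter at `p - k`. -/
theorem expL_sound (C : Ctx R) (a : ℤ) (k : ℕ) (h1 : 1 ≤ k) (hk : k < C.p) :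
    C.fl a (C.p - k) = ((expL a).map fun x => (x.1 : R) * C.fl (x.2.headD 0) k).sum := by
  have hx : ((C.p : R) * C.I k) ^ 7 = 0 := by rw [mul_pow, C.hnil, zero_mul]
  have key := pow_expand a.natAbs ((C.p : R) * C.I k) hx
  have hterm : ((expL a).map fun x => (x.1 : R) * C.fl (x.2.headD 0) k) =
      (List.range (7 - a.natAbs)).map fun t =>
        ((if a < 0 then -(-1) ^ k else 1) * (-1) ^ a.natAbs) *
          ((((a.natAbs + t - 1).choose t : ℕ) : R) * ((C.p : R) * C.I k) ^ (a.natAbs + t)) := by
    unfold expL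
    rw [List.map_map]
    refine List.map_congr_left fun t _ => ?_
    simp only [Function.comp, List.headD_cons, Ctx.fl, natAbs_up, up_neg]
    push_cast
    split_ifs with h <;> ring
  rw [hterm, List.sum_map_mul_left, ← key]
  unfold Ctx.fl
  rw [C.I_reflect k h1 hk, C.sign_reflect k hk]
  rw [mul_pow (-C.I k), mul_pow (C.p : R), neg_pow (C.I k)]
  ring

theorem catC_eval (C : Ctx R) (c d : Comb) (G : ℕ → R) (n : ℕ) :
    ev (fun w => B C.fl w G n) (catC c d) =
      (c.map fun x => (d.map fun y => (x.1 : R) * y.1 * B C.fl (x.2 ++ y.2) G n).sum).sum := by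
  have h1 : ev (fun w => B C.fl w G n) (catC c d) =
      ev (fun w => B C.fl w G n) (c.flatMap fun x => d.map fun y => (x.1 * y.1, x.2 ++ y.2)) :=
    ev_trunc _ (fun w hw => B_fl_zero C w G n hw) _
  rw [h1, ev_flatMap]
  congr 1
  refine List.map_congr_left fun x _ => ?_
  unfold ev
  rw [List.map_map]
  congr 1
  refine List.map_congr_left fun y _ => ?_
  simp only [Function.comp]
  push_cast
  ring

/-- The expansion of a word at reflected indices. -/
theorem expW_sound (C : Ctx R) (L : List ℤ) (G : ℕ → R) (n : ℕ) (hn : n ≤ C.p - 1) :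
    B (fun a k => C.fl a (C.p - k)) L G n = ev (fun w => B C.fl w G n) (expW L) := by
  induction L generalizing n with
  | nil => simp [B, expW, ev]
  | cons a L ih =>
    have hp := C.hp.two_le
    rw [expW, catC_eval, B]
    have hx : ∀ x ∈ expL a, x.2 = [x.2.headD 0] := by
      intro x hx
      unfold expL at hx
      rw [List.mem_map] at hx
      obtain ⟨t, -, rfl⟩ := hx
      rfl
    have h1 : ∀ k ∈ range n, C.fl a (C.p - (k + 1)) * B (fun a k => C.fl a (C.p - k)) L G k =
        ((expL a).map fun x => ((expW L).map fun y => (x.1 : R) * y.1 *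
          (C.fl (x.2.headD 0) (k + 1) * B C.fl y.2 G k)).sum).sum := by
      intro k hk
      rw [mem_range] at hk
      rw [expL_sound C a (k + 1) (by omega) (by omega), ih k (by omega), ev,
        ← List.sum_map_mul_right]
      congr 1
      refine List.map_congr_left fun x _ => ?_
      rw [← List.sum_map_mul_left]
      congr 1
      refine List.map_congr_left fun y _ => ?_
      ring
    rw [sum_congr rfl h1]
    have swap : ∀ (l : Comb) (F : ℤ × List ℤ → ℕ → R),
        ∑ k ∈ range n, (l.map fun x => F x k).sum = (l.map fun x => ∑ k ∈ range n, F x k).sum := by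
      intro l F
      induction l with
      | nil => simp
      | cons x l ih =>
        simp only [List.map_cons, List.sum_cons]
        rw [Finset.sum_add_distrib, ih]
    rw [swap]
    congr 1
    refine List.map_congr_left fun x hxm => ?_
    rw [swap]
    congr 1
    refine List.map_congr_left fun y _ => ?_
    conv_rhs => rw [hx x hxm]
    simp only [List.cons_append, List.nil_append, B]
    rw [Finset.mul_sum]

end Pool.Agent.H97.Sun
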