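import Pool.Agent.H97.Sun.Defs

namespace Pool.Agent.H97.Sun

/-- `∑ p^4 (-1)^k V_k / k^4`. -/
def combA4 : Comb :=
  [(1, [-4]), (2, [-4, 1]), (2, [-4, 2]), (4, [-4, 1, 1]), (1, [-5]), (2, [-5, 1]), (1, [-6])]

/-- `∑ p^2 (-1)^k V_k / k^2`. -/
def combA2 : Comb :=
  [(1, [-2]), (2, [-2, 1]), (2, [-2, 2]), (4, [-2, 1, 1]), (1, [-3]), (2, [-3, 1]), (1, [-4])]

/-- `∑ p^2 W_k / k^2`. -/
def combW2 : Comb :=
  [(1, [2]), (2, [2, 1]), (3, [2, 2]), (4, [2, 1, 1]), (2, [3]), (4, [3, 1]), (3, [4])]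

/-- `∑ p^2 W_k b_k / k^2`. -/
def combWb : Comb :=
  [(1, [4]), (2, [2, 3]), (4, [5]), (2, [4, 1]), (7, [2, 4]), (4, [2, 1, 3]), (4, [2, 3, 1]),
    (10, [6]), (8, [5, 1]), (4, [3, 3]), (3, [4, 2]), (4, [4, 1, 1])]

def combD : Comb := combWb ++ smulC 3 (mulC [2] combW2)

def combC : Comb := combD ++ mulC [1] combD ++ mulC [1, 1] combD

/-- `27 p^3 X + 54 p H(1) + 13 p^3 H(3)` in terms of words. -/
def target : Comb :=
  smulC 36 (combA4 ++ mulC [2] combA2) ++ smulC (-18) [(1, [3]), (1, [1, 2])] ++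
    smulC (-3) combC ++ [(54, [1]), (13, [3])]

end Pool.Agent.H97.Sun
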