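import Pool.Agent.H97.Sun.Stuffle
import Pool.Agent.H97.Sun.Reverse
import Pool.Agent.H97.Sun.Target

/-! Expansion of the finite sums of the exact identities into words. -/

namespace Pool.Agent.H97.Sun

open Finset

variable {R : Type} [CommRing R]

/-- `x_k = p / k`. -/
def Ctx.x (C : Ctx R) (k : ℕ) : R := (C.p : R) * C.I k

/-- `(1 - x_k)^{-1}`. -/
def Ctx.G (C : Ctx R) (k : ℕ) : R := ∑ t ∈ range 7, C.x k ^ t

/-- `∏_{j < k} (1 + x_j) ∏_{j ≤ k} (1 - x_j)^{-1}` at `k = n + 1`. -/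
def Ctx.V (C : Ctx R) (n : ℕ) : R :=
  (∏ j ∈ range n, (1 + C.x (j + 1))) * ∏ j ∈ range (n + 1), C.G (j + 1)

/-- `∏_{j ≤ k} (1 - x_j)^{-2}` at `k = n + 1`. -/
def Ctx.W (C : Ctx R) (n : ℕ) : R := (∏ j ∈ range (n + 1), C.G (j + 1)) ^ 2

/-- `-H^{(2)}_{k-1} + ∑_{j ≤ k} 1/(p-j)^2` at `k = n + 1`, times `p^2`. -/
def Ctx.br (C : Ctx R) (n : ℕ) : R :=
  -A C.fl [2] n + ∑ j ∈ range (n + 1), C.fl 2 (C.p - (j + 1))

theorem fl_pos (C : Ctx R) (a : ℕ) (k : ℕ) : C.fl (a : ℤ) k = C.x k ^ a := by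
  have h : ¬ ((a : ℤ) < 0) := by omega
  simp only [Ctx.fl, Ctx.x, Int.natAbs_natCast, h, if_false, mul_pow, mul_one]

theorem fl_neg (C : Ctx R) (a : ℕ) (ha : 0 < a) (k : ℕ) :
    C.fl (-(a : ℤ)) k = C.x k ^ a * (-1) ^ k := by
  have h : -(a : ℤ) < 0 := by omega
  simp only [Ctx.fl, Ctx.x, Int.natAbs_neg, Int.natAbs_natCast, h, if_true, mul_pow]

theorem A_fl_eq (C : Ctx R) (L : List ℤ) (n : ℕ) : ∃ y : R, A C.fl L n = (C.p : R) ^ wt L * y := by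
  rw [A_eq_B]; exact B_fl_eq C L _ n

theorem fl1 (C : Ctx R) (k : ℕ) : C.fl 1 k = C.x k := by simpa using fl_pos C 1 k
theorem fl2 (C : Ctx R) (k : ℕ) : C.fl 2 k = C.x k ^ 2 := fl_pos C 2 k
theorem fl3 (C : Ctx R) (k : ℕ) : C.fl 3 k = C.x k ^ 3 := fl_pos C 3 k
theorem fl4 (C : Ctx R) (k : ℕ) : C.fl 4 k = C.x k ^ 4 := fl_pos C 4 k
theorem fl5 (C : Ctx R) (k : ℕ) : C.fl 5 k = C.x k ^ 5 := fl_pos C 5 k
theorem fl6 (C : Ctx R) (k : ℕ) : C.fl 6 k = C.x k ^ 6 := fl_pos C 6 k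
theorem flm2 (C : Ctx R) (k : ℕ) : C.fl (-2) k = C.x k ^ 2 * (-1) ^ k := fl_neg C 2 (by omega) k
theorem flm3 (C : Ctx R) (k : ℕ) : C.fl (-3) k = C.x k ^ 3 * (-1) ^ k := fl_neg C 3 (by omega) k
theorem flm4 (C : Ctx R) (k : ℕ) : C.fl (-4) k = C.x k ^ 4 * (-1) ^ k := fl_neg C 4 (by omega) k
theorem flm5 (C : Ctx R) (k : ℕ) : C.fl (-5) k = C.x k ^ 5 * (-1) ^ k := fl_neg C 5 (by omega) k
theorem flm6 (C : Ctx R) (k : ℕ) : C.fl (-6) k = C.x k ^ 6 * (-1) ^ k := fl_neg C 6 (by omega) k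

theorem A_nil (f : ℤ → ℕ → R) (n : ℕ) : A f [] n = 1 := rfl

theorem prodPlus (C : Ctx R) (n : ℕ) :
    ∃ y : R, ∏ j ∈ range n, (1 + C.x (j + 1)) =
      1 + A C.fl [1] n + A C.fl [1, 1] n + (C.p : R) ^ 3 * y := by
  induction n with
  | zero => exact ⟨0, by simp [A_cons_zero]⟩
  | succ n ih =>
    obtain ⟨y, hy⟩ := ih
    obtain ⟨u, hu⟩ := A_fl_eq C [1, 1] n
    have hw : wt ([1, 1] : List ℤ) = 2 := rfl
    rw [hw] at hu
    refine ⟨u * C.I (n + 1) + y * (1 + C.x (n + 1)), ?_⟩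
    rw [prod_range_succ, hy, A_cons_succ, A_cons_succ C.fl 1 [1], A_nil, fl1]
    have hx : C.x (n + 1) = (C.p : R) * C.I (n + 1) := rfl
    linear_combination C.x (n + 1) * hu + (C.p : R) ^ 2 * u * hx

theorem G_eq (C : Ctx R) (k : ℕ) : ∃ y : R, C.G k = 1 + C.x k + C.x k ^ 2 + (C.p : R) ^ 3 * y := by
  refine ⟨C.I k ^ 3 * (1 + C.x k + C.x k ^ 2 + C.x k ^ 3), ?_⟩
  have h : C.x k ^ 3 = (C.p : R) ^ 3 * C.I k ^ 3 := by rw [Ctx.x, mul_pow]
  simp only [Ctx.G, sum_range_succ, sum_range_zero]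
  linear_combination (1 + C.x k + C.x k ^ 2 + C.x k ^ 3) * h

theorem prodG (C : Ctx R) (n : ℕ) :
    ∃ y : R, ∏ j ∈ range n, C.G (j + 1) =
      1 + A C.fl [1] n + A C.fl [2] n + A C.fl [1, 1] n + (C.p : R) ^ 3 * y := by
  induction n with
  | zero => exact ⟨0, by simp [A_cons_zero]⟩
  | succ n ih =>
    obtain ⟨y, hy⟩ := ih
    obtain ⟨g, hg⟩ := G_eq C (n + 1)
    obtain ⟨u, hu⟩ := A_fl_eq C [1, 1] n
    obtain ⟨s, hs⟩ := A_fl_eq C [2] n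
    obtain ⟨r, hr⟩ := A_fl_eq C [1] n
    have hw : wt ([1, 1] : List ℤ) = 2 := rfl
    have hw2 : wt ([2] : List ℤ) = 2 := rfl
    have hw1 : wt ([1] : List ℤ) = 1 := rfl
    rw [hw] at hu
    rw [hw2] at hs
    rw [hw1] at hr
    have hx : C.x (n + 1) = (C.p : R) * C.I (n + 1) := rfl
    set S := 1 + A C.fl [1] n + A C.fl [2] n + A C.fl [1, 1] n
    refine ⟨s * C.I (n + 1) + u * C.I (n + 1) + r * C.I (n + 1) ^ 2 +
      (s + u) * C.p * C.I (n + 1) ^ 2 + y * (1 + C.x (n + 1) + C.x (n + 1) ^ 2) +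
      (S + (C.p : R) ^ 3 * y) * g, ?_⟩
    rw [prod_range_succ, hy, hg, A_cons_succ C.fl 1 [1], A_cons_succ C.fl 1 [], A_cons_succ C.fl 2 [],
      A_nil, fl1, fl2, hx]
    linear_combination ((C.p : R) * C.I (n + 1) + (C.p : R) ^ 2 * C.I (n + 1) ^ 2) * hu +
      ((C.p : R) * C.I (n + 1) + (C.p : R) ^ 2 * C.I (n + 1) ^ 2) * hs +
      ((C.p : R) ^ 2 * C.I (n + 1) ^ 2) * hr


theorem st11 (C : Ctx R) (n : ℕ) :
    A C.fl [1] n * A C.fl [1] n = A C.fl [2] n + 2 * A C.fl [1, 1] n := by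
  have h := st_sound C.fl C.fl_dm n [1] [1]
  have h2 : st [1] [1] = [[1, 1], [1, 1], [2]] := by decide
  rw [h2] at h
  simp only [List.map_cons, List.map_nil, List.sum_cons, List.sum_nil] at h
  rw [h]
  ring

theorem st13 (C : Ctx R) (n : ℕ) :
    A C.fl [1] n * A C.fl [3] n = A C.fl [1, 3] n + A C.fl [3, 1] n + A C.fl [4] n := by
  have h := st_sound C.fl C.fl_dm n [1] [3]
  have h2 : st [1] [3] = [[1, 3], [3, 1], [4]] := by decide
  rw [h2] at h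
  simp only [List.map_cons, List.map_nil, List.sum_cons, List.sum_nil] at h
  rw [h]
  ring

theorem V_eq (C : Ctx R) (n : ℕ) :
    ∃ y : R, C.V n = 1 + 2 * A C.fl [1] n + 2 * A C.fl [2] n + 4 * A C.fl [1, 1] n + C.x (n + 1) +
      2 * C.x (n + 1) * A C.fl [1] n + C.x (n + 1) ^ 2 + (C.p : R) ^ 3 * y := by
  obtain ⟨y1, h1⟩ := prodPlus C n
  obtain ⟨y2, h2⟩ := prodG C n
  obtain ⟨y3, h3⟩ := G_eq C (n + 1)
  obtain ⟨u, hu⟩ := A_fl_eq C [1, 1] n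
  obtain ⟨s, hs⟩ := A_fl_eq C [2] n
  obtain ⟨r, hr⟩ := A_fl_eq C [1] n
  have hw : wt ([1, 1] : List ℤ) = 2 := rfl
  have hw2 : wt ([2] : List ℤ) = 2 := rfl
  have hw1 : wt ([1] : List ℤ) = 1 := rfl
  rw [hw] at hu
  rw [hw2] at hs
  rw [hw1, pow_one] at hr
  have hx : C.x (n + 1) = (C.p : R) * C.I (n + 1) := rfl
  have hst := st11 C n
  unfold Ctx.V
  rw [prod_range_succ, h1, h2, h3]
  rw [hu, hs, hr, hx] at *
  clear h1 h2 h3 hu hs hr hx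
  generalize C.I (n + 1) = i at *
  generalize (C.p : R) = P at *
  refine ⟨(2 * s * i + 4 * u * i + 2 * r * i ^ 2 + 2 * P * s * i ^ 2 + 4 * P * u * i ^ 2) +
    (r * s + 2 * r * u + P * u * s + P * u ^ 2) * (1 + P * i + P ^ 2 * i ^ 2) +
    (y1 * (1 + P * r + P ^ 2 * s + P ^ 2 * u + P ^ 3 * y2) * (1 + P * i + (P * i) ^ 2 + P ^ 3 * y3) +
      (1 + P * r + P ^ 2 * u) * y2 * (1 + P * i + (P * i) ^ 2 + P ^ 3 * y3) +
      (1 + P * r + P ^ 2 * u) * (1 + P * r + P ^ 2 * s + P ^ 2 * u) * y3), ?_⟩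
  linear_combination (1 + P * i + P ^ 2 * i ^ 2) * hst

theorem W_eq (C : Ctx R) (n : ℕ) :
    ∃ y : R, C.W n = 1 + 2 * A C.fl [1] n + 3 * A C.fl [2] n + 4 * A C.fl [1, 1] n +
      2 * C.x (n + 1) + 4 * C.x (n + 1) * A C.fl [1] n + 3 * C.x (n + 1) ^ 2 +
      (C.p : R) ^ 3 * y := by
  obtain ⟨y1, h2⟩ := prodG C n
  obtain ⟨y2, h3⟩ := G_eq C (n + 1)
  obtain ⟨u, hu⟩ := A_fl_eq C [1, 1] n
  obtain ⟨s, hs⟩ := A_fl_eq C [2] n
  obtain ⟨r, hr⟩ := A_fl_eq C [1] n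
  have hw : wt ([1, 1] : List ℤ) = 2 := rfl
  have hw2 : wt ([2] : List ℤ) = 2 := rfl
  have hw1 : wt ([1] : List ℤ) = 1 := rfl
  rw [hw] at hu
  rw [hw2] at hs
  rw [hw1, pow_one] at hr
  have hx : C.x (n + 1) = (C.p : R) * C.I (n + 1) := rfl
  have hst := st11 C n
  unfold Ctx.W
  rw [prod_range_succ, h2, h3]
  rw [hu, hs, hr, hx] at *
  clear h2 h3 hu hs hr hx
  generalize C.I (n + 1) = i at *
  generalize (C.p : R) = P at *
  refine ⟨(6 * s * i + 8 * u * i + 6 * r * i ^ 2 + 9 * P * s * i ^ 2 + 12 * P * u * i ^ 2) +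
    ((2 * r * s + 2 * r * u + P * (s + u) ^ 2) * (1 + 2 * (P * i) + 3 * (P * i) ^ 2) +
      (1 + 2 * (P * r) + 3 * (P ^ 2 * s) + 4 * (P ^ 2 * u)) * (2 * i ^ 3 + P * i ^ 4) +
      P ^ 3 * (2 * r * s + 2 * r * u + P * (s + u) ^ 2) * (2 * i ^ 3 + P * i ^ 4)) +
    (y1 * ((1 + P * r + P ^ 2 * s + P ^ 2 * u) + (1 + P * r + P ^ 2 * s + P ^ 2 * u + P ^ 3 * y1)) *
      (1 + P * i + (P * i) ^ 2 + P ^ 3 * y2) ^ 2 +
      (1 + P * r + P ^ 2 * s + P ^ 2 * u) ^ 2 * y2 *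
        ((1 + P * i + (P * i) ^ 2) + (1 + P * i + (P * i) ^ 2 + P ^ 3 * y2))), ?_⟩
  linear_combination (1 + P * i + P ^ 2 * i ^ 2) ^ 2 * hst

theorem expL2 : expL 2 = [(1, [2]), (2, [3]), (3, [4]), (4, [5]), (5, [6])] := by decide

theorem A_single (f : ℤ → ℕ → R) (a : ℤ) (n : ℕ) : A f [a] n = ∑ j ∈ range n, f a (j + 1) := by
  simp [A]

theorem br_eq (C : Ctx R) (n : ℕ) (hn : n + 1 < C.p) :
    ∃ y : R, C.br n = C.x (n + 1) ^ 2 + 2 * A C.fl [3] n + 2 * C.x (n + 1) ^ 3 +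
      3 * A C.fl [4] n + 3 * C.x (n + 1) ^ 4 + (C.p : R) ^ 5 * y := by
  refine ⟨∑ j ∈ range (n + 1), (4 * C.I (j + 1) ^ 5 + 5 * C.p * C.I (j + 1) ^ 6), ?_⟩
  have h : ∑ j ∈ range (n + 1), C.fl 2 (C.p - (j + 1)) =
      A C.fl [2] (n + 1) + 2 * A C.fl [3] (n + 1) + 3 * A C.fl [4] (n + 1) +
        (C.p : R) ^ 5 * ∑ j ∈ range (n + 1), (4 * C.I (j + 1) ^ 5 + 5 * C.p * C.I (j + 1) ^ 6) := by
    rw [A_single, A_single, A_single, mul_sum, mul_sum, mul_sum, ← sum_add_distrib,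
      ← sum_add_distrib, ← sum_add_distrib]
    refine sum_congr rfl fun j hj => ?_
    rw [mem_range] at hj
    rw [expL_sound C 2 (j + 1) (by omega) (by omega), expL2]
    simp only [List.map_cons, List.map_nil, List.sum_cons, List.sum_nil, List.headD_cons]
    rw [fl2, fl3, fl4, fl5, fl6]
    simp only [Ctx.x]
    push_cast
    ring
  unfold Ctx.br
  rw [h, A_cons_succ C.fl 2, A_cons_succ C.fl 3, A_cons_succ C.fl 4, A_nil, fl2, fl3, fl4]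
  ring

/-- Termwise evaluation. -/
theorem ev_val_eq (C : Ctx R) (c : Comb) (hc : ∀ x ∈ c, x.2 ≠ []) :
    ev C.val c = ∑ k ∈ range (C.p - 1),
      (c.map fun x => (x.1 : R) * (C.fl (x.2.headD 0) (k + 1) * A C.fl x.2.tail k)).sum := by
  induction c with
  | nil => simp [ev]
  | cons x c ih =>
    rw [ev_cons, ih (fun y hy => hc y (List.mem_cons_of_mem _ hy))]
    simp only [List.map_cons, List.sum_cons, sum_add_distrib]
    congr 1
    obtain ⟨n, w⟩ := x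
    cases w with
    | nil => exact absurd rfl (hc _ List.mem_cons_self)
    | cons a L => simp only [Ctx.val, A, List.headD_cons, List.tail_cons, mul_sum]

theorem sumA4 (C : Ctx R) :
    ∑ k ∈ range (C.p - 1), C.fl (-4) (k + 1) * C.V k = ev C.val combA4 := by
  rw [ev_val_eq C combA4 (by decide)]
  refine sum_congr rfl fun k _ => ?_
  simp only [combA4, List.map_cons, List.map_nil, List.sum_cons, List.sum_nil, List.headD_cons,
    List.tail_cons, flm4, flm5, flm6, A_nil]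
  obtain ⟨y, hy⟩ := V_eq C k
  rw [hy]
  have hx : C.x (k + 1) = (C.p : R) * C.I (k + 1) := rfl
  rw [hx]
  push_cast
  linear_combination (C.I (k + 1) ^ 4 * (-1) ^ (k + 1) * y) * C.hnil

theorem sumA2 (C : Ctx R) :
    C.val [2] * ∑ k ∈ range (C.p - 1), C.fl (-2) (k + 1) * C.V k =
      C.val [2] * ev C.val combA2 := by
  rw [ev_val_eq C combA2 (by decide), mul_sum, mul_sum]
  refine sum_congr rfl fun k _ => ?_
  simp only [combA2, List.map_cons, List.map_nil, List.sum_cons, List.sum_nil, List.headD_cons,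
    List.tail_cons, flm4, flm3, flm2, A_nil]
  obtain ⟨y, hy⟩ := V_eq C k
  obtain ⟨q, hq⟩ := A_fl_eq C [2] (C.p - 1)
  have hq' : C.val [2] = (C.p : R) ^ 2 * q := hq
  rw [hy, hq']
  have hx : C.x (k + 1) = (C.p : R) * C.I (k + 1) := rfl
  rw [hx]
  push_cast
  linear_combination (q * C.I (k + 1) ^ 2 * (-1) ^ (k + 1) * y) * C.hnil

theorem sumW2 (C : Ctx R) :
    C.val [2] * ∑ k ∈ range (C.p - 1), C.fl 2 (k + 1) * C.W k =
      C.val [2] * ev C.val combW2 := by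
  rw [ev_val_eq C combW2 (by decide), mul_sum, mul_sum]
  refine sum_congr rfl fun k _ => ?_
  simp only [combW2, List.map_cons, List.map_nil, List.sum_cons, List.sum_nil, List.headD_cons,
    List.tail_cons, fl4, fl3, fl2, A_nil]
  obtain ⟨y, hy⟩ := W_eq C k
  obtain ⟨q, hq⟩ := A_fl_eq C [2] (C.p - 1)
  have hq' : C.val [2] = (C.p : R) ^ 2 * q := hq
  rw [hy, hq']
  have hx : C.x (k + 1) = (C.p : R) * C.I (k + 1) := rfl
  rw [hx]
  push_cast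
  linear_combination (q * C.I (k + 1) ^ 2 * y) * C.hnil

theorem sumWb (C : Ctx R) :
    ∑ k ∈ range (C.p - 1), C.fl 2 (k + 1) * C.W k * C.br k = ev C.val combWb := by
  rw [ev_val_eq C combWb (by decide)]
  refine sum_congr rfl fun k hk => ?_
  rw [mem_range] at hk
  simp only [combWb, List.map_cons, List.map_nil, List.sum_cons, List.sum_nil, List.headD_cons,
    List.tail_cons, fl6, fl5, fl4, fl3, fl2, A_nil]
  obtain ⟨yw, hw⟩ := W_eq C k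
  obtain ⟨yb, hb⟩ := br_eq C k (by omega)
  have hst := st13 C k
  obtain ⟨u, hu⟩ := A_fl_eq C [1, 1] k
  obtain ⟨s, hs⟩ := A_fl_eq C [2] k
  obtain ⟨r, hr⟩ := A_fl_eq C [1] k
  obtain ⟨v, hv⟩ := A_fl_eq C [3] k
  obtain ⟨z, hz⟩ := A_fl_eq C [4] k
  have w1 : wt ([1, 1] : List ℤ) = 2 := rfl
  have w2 : wt ([2] : List ℤ) = 2 := rfl
  have w3 : wt ([1] : List ℤ) = 1 := rfl
  have w4 : wt ([3] : List ℤ) = 3 := rfl
  have w5 : wt ([4] : List ℤ) = 4 := rfl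
  rw [w1] at hu
  rw [w2] at hs
  rw [w3, pow_one] at hr
  rw [w4] at hv
  rw [w5] at hz
  have hx : C.x (k + 1) = (C.p : R) * C.I (k + 1) := rfl
  rw [hw, hb]
  rw [hr, hv, hz] at hst
  rw [hu, hs, hr, hv, hz, hx]
  clear hw hb hu hs hr hv hz hx
  have hnil := C.hnil
  generalize C.I (k + 1) = i at *
  generalize (C.p : R) = P at *
  push_cast
  linear_combination (i ^ 2 * ((2 * r + 2 * i) * (3 * z + 3 * i ^ 4) +
      (3 * s + 4 * u + 4 * i * r + 3 * i ^ 2) * (2 * v + 2 * i ^ 3) +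
      P * (3 * s + 4 * u + 4 * i * r + 3 * i ^ 2) * (3 * z + 3 * i ^ 4)) +
    i ^ 2 * yw * (i ^ 2 + 2 * P * v + 2 * P * i ^ 3 + 3 * P ^ 2 * z + 3 * P ^ 2 * i ^ 4) +
    i ^ 2 * (1 + 2 * (P * r) + 3 * (P ^ 2 * s) + 4 * (P ^ 2 * u) + 2 * (P * i) +
      4 * (P * i) * (P * r) + 3 * (P * i) ^ 2 + P ^ 3 * yw) * yb) * hnil +
    4 * (P * i) ^ 2 * hst

/-- The left side of the main identity in the ring. -/
def Ctx.lhs (C : Ctx R) : R :=
  36 * (∑ k ∈ range (C.p - 1), C.fl (-4) (k + 1) * C.V k +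
      C.val [2] * ∑ k ∈ range (C.p - 1), C.fl (-2) (k + 1) * C.V k) -
    18 * ∑ k ∈ range (C.p - 1), C.x (k + 1) * A C.fl [2] (k + 1) -
    3 * (∏ j ∈ range (C.p - 1), (1 + C.x (j + 1))) *
      ∑ k ∈ range (C.p - 1), C.fl 2 (k + 1) * C.W k * (3 * C.val [2] + C.br k) +
    54 * C.val [1] + 13 * C.val [3]

theorem sumB (C : Ctx R) :
    ∑ k ∈ range (C.p - 1), C.x (k + 1) * A C.fl [2] (k + 1) =
      ev C.val [(1, [3]), (1, [1, 2])] := by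
  rw [ev_val_eq C _ (by decide)]
  refine sum_congr rfl fun k _ => ?_
  simp only [List.map_cons, List.map_nil, List.sum_cons, List.sum_nil, List.headD_cons,
    List.tail_cons, fl3, fl1, A_nil]
  rw [A_cons_succ, A_nil, fl2]
  push_cast
  ring

theorem br_dvd (C : Ctx R) (n : ℕ) (hn : n + 1 < C.p) : ∃ y : R, C.br n = (C.p : R) ^ 2 * y := by
  obtain ⟨y, hy⟩ := br_eq C n hn
  obtain ⟨v, hv⟩ := A_fl_eq C [3] n
  obtain ⟨z, hz⟩ := A_fl_eq C [4] n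
  have w4 : wt ([3] : List ℤ) = 3 := rfl
  have w5 : wt ([4] : List ℤ) = 4 := rfl
  rw [w4] at hv
  rw [w5] at hz
  have hx : C.x (n + 1) = (C.p : R) * C.I (n + 1) := rfl
  rw [hy, hv, hz, hx]
  exact ⟨C.I (n + 1) ^ 2 + 2 * (C.p * v) + 2 * (C.p * C.I (n + 1) ^ 3) + 3 * (C.p ^ 2 * z) +
    3 * (C.p ^ 2 * C.I (n + 1) ^ 4) + C.p ^ 3 * y, by ring⟩

theorem lhs_eq (C : Ctx R) : C.lhs = ev C.val target := by
  have hD : ∑ k ∈ range (C.p - 1), C.fl 2 (k + 1) * C.W k * (3 * C.val [2] + C.br k) =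
      ev C.val combD := by
    unfold combD
    rw [ev_append, ev_smulC, ev_mulC, ← sumW2, ← sumWb, mul_sum, mul_sum, ← sum_add_distrib]
    refine sum_congr rfl fun k _ => ?_
    push_cast
    ring
  have hD4 : ∃ z : R, ev C.val combD = (C.p : R) ^ 4 * z := by
    rw [← hD]
    have h : ∀ k ∈ range (C.p - 1), ∃ z : R,
        C.fl 2 (k + 1) * C.W k * (3 * C.val [2] + C.br k) = (C.p : R) ^ 4 * z := by
      intro k hk
      rw [mem_range] at hk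
      obtain ⟨y, hy⟩ := br_dvd C k (by omega)
      obtain ⟨q, hq⟩ := A_fl_eq C [2] (C.p - 1)
      have hq' : C.val [2] = (C.p : R) ^ 2 * q := hq
      refine ⟨C.I (k + 1) ^ 2 * C.W k * (3 * q + y), ?_⟩
      rw [hy, hq', fl2]
      have hx : C.x (k + 1) = (C.p : R) * C.I (k + 1) := rfl
      rw [hx]
      ring
    choose! f hf using h
    exact ⟨∑ k ∈ range (C.p - 1), f k, by rw [mul_sum]; exact sum_congr rfl hf⟩
  obtain ⟨z, hz⟩ := hD4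
  obtain ⟨y, hy⟩ := prodPlus C (C.p - 1)
  unfold Ctx.lhs target combC
  rw [hD, sumA4, sumA2, sumB, hy]
  simp only [ev_append, ev_smulC, ev_mulC, ev_cons, ev_nil]
  have h1 : A C.fl [1] (C.p - 1) = C.val [1] := rfl
  have h11 : A C.fl [1, 1] (C.p - 1) = C.val [1, 1] := rfl
  rw [h1, h11, hz]
  push_cast
  linear_combination (-3 * y * z) * C.hnil

end Pool.Agent.H97.Sun
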