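import Pool.Agent.H97.Sun.Exact
import Pool.Agent.H97.Sun.Expand
import Pool.Agent.H97.Sun.Check
import Pool.Agent.H97.Sun.Cert

namespace Pool.Agent.H97.Sun

open Finset

theorem lhs_LL {R : Type} [CommRing R] (C : Ctx R) : C.lhs = LL C.p C.x C.G := by
  unfold Ctx.lhs LL
  simp only [Ctx.br, Ctx.val, A_single, flm4, flm2, fl2, fl1, fl3, Ctx.W]
  rfl

section
variable (p : ℕ) [hp : Fact p.Prime]

/-- The inverses in the `p`-adic integers. -/
noncomputable def ii (k : ℕ) : ℤ_[p] := Ring.inverse (k : ℤ_[p])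

noncomputable def xx (k : ℕ) : ℤ_[p] := (p : ℤ_[p]) * ii p k

noncomputable def gg (k : ℕ) : ℤ_[p] := Ring.inverse (1 - xx p k)

theorem unit_nat (k : ℕ) (hk : ¬ p ∣ k) : IsUnit (k : ℤ_[p]) := by
  rw [PadicInt.isUnit_iff]
  have h1 := PadicInt.norm_le_one (k : ℤ_[p])
  have h2 := PadicInt.norm_int_lt_one_iff_dvd (p := p) (k : ℤ)
  have h3 : ¬ ‖((k : ℤ) : ℤ_[p])‖ < 1 := by
    rw [h2]
    exact_mod_cast hk
  push_cast at h3
  exact le_antisymm h1 (not_lt.mp h3)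

theorem ii_mul (k : ℕ) (h1 : 1 ≤ k) (hk : k < p) : (k : ℤ_[p]) * ii p k = 1 :=
  Ring.mul_inverse_cancel _ (unit_nat p k (Nat.not_dvd_of_pos_of_lt h1 hk))

theorem unit_one_sub (k : ℕ) : IsUnit (1 - xx p k) := by
  have h : xx p k ∈ nonunits ℤ_[p] := by
    rw [PadicInt.mem_nonunits]
    unfold xx
    rw [norm_mul]
    have h1 : ‖(p : ℤ_[p])‖ < 1 := by
      have := PadicInt.norm_p (p := p)
      rw [this]
      exact inv_lt_one_of_one_lt₀ (by exact_mod_cast hp.out.one_lt)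
    have h2 := PadicInt.norm_le_one (ii p k)
    have h3 := norm_nonneg (p : ℤ_[p])
    calc ‖(p : ℤ_[p])‖ * ‖ii p k‖ ≤ ‖(p : ℤ_[p])‖ * 1 := by gcongr
      _ < 1 := by rw [mul_one]; exact h1
  exact IsLocalRing.isUnit_one_sub_self_of_mem_nonunits _ h

theorem gg_mul (k : ℕ) : (1 - xx p k) * gg p k = 1 :=
  Ring.mul_inverse_cancel _ (unit_one_sub p k)

/-- The context over `ZMod (p ^ 7)`. -/
noncomputable def ctx (h2 : p ≠ 2) : Ctx (ZMod (p ^ 7)) where
  p := p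
  hp := hp.out
  h2 := h2
  I := fun k => PadicInt.toZModPow 7 (ii p k)
  hI := by
    intro k h1 hk
    have h := congrArg (PadicInt.toZModPow (p := p) 7) (ii_mul p k h1 hk)
    rw [map_mul, map_one, map_natCast] at h
    exact h
  hI0 := by
    have h : ii p 0 = 0 := by
      unfold ii
      rw [Nat.cast_zero, Ring.inverse_zero]
    rw [h, map_zero]
  hnil := by
    have h : ((p ^ 7 : ℕ) : ZMod (p ^ 7)) = 0 := ZMod.natCast_self _
    rw [Nat.cast_pow] at h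
    exact h

theorem map_xx (h2 : p ≠ 2) (k : ℕ) :
    PadicInt.toZModPow (p := p) 7 (xx p k) = (ctx p h2).x k := by
  unfold xx
  rw [map_mul, map_natCast]
  rfl

theorem map_gg (h2 : p ≠ 2) (k : ℕ) :
    PadicInt.toZModPow (p := p) 7 (gg p k) = (ctx p h2).G k := by
  have h := congrArg (PadicInt.toZModPow (p := p) 7) (gg_mul p k)
  rw [map_mul, map_one, map_sub, map_one, map_xx p h2] at h
  have h3 : (1 - (ctx p h2).x k) * (ctx p h2).G k = 1 := by
    have h4 : (ctx p h2).x k ^ 7 = 0 := by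
      unfold Ctx.x
      rw [mul_pow, (ctx p h2).hnil, zero_mul]
    unfold Ctx.G
    simp only [sum_range_succ, sum_range_zero]
    linear_combination -h4
  calc _ = ((1 - (ctx p h2).x k) * (ctx p h2).G k) * PadicInt.toZModPow (p := p) 7 (gg p k) := by
          rw [h3, one_mul]
    _ = ((1 - (ctx p h2).x k) * PadicInt.toZModPow (p := p) 7 (gg p k)) * (ctx p h2).G k := by ring
    _ = _ := by rw [h, one_mul]

theorem target_zero (h7 : 7 < p) (h2 : p ≠ 2) : ev (ctx p h2).val target = 0 := by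
  have h := checkFast_sound (ctx p h2) cert (smulC 5040 target) cert_ok
  rw [ev_smulC] at h
  have hu : IsUnit (((5040 : ℤ) : ZMod (p ^ 7))) := by
    have : ((5040 : ℤ) : ZMod (p ^ 7)) = ((5040 : ℕ) : ZMod (p ^ 7)) := by norm_num
    rw [this, ZMod.isUnit_iff_coprime]
    apply Nat.Coprime.pow_right
    rw [Nat.coprime_comm, Nat.Prime.coprime_iff_not_dvd hp.out]
    intro hd
    have h5 : (5040 : ℕ) = 2 ^ 4 * 3 ^ 2 * 5 * 7 := by norm_num
    rw [h5] at hd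
    rcases (Nat.Prime.dvd_mul hp.out).mp hd with hd | hd
    · rcases (Nat.Prime.dvd_mul hp.out).mp hd with hd | hd
      · rcases (Nat.Prime.dvd_mul hp.out).mp hd with hd | hd
        · have := Nat.le_of_dvd (by norm_num) (hp.out.dvd_of_dvd_pow hd)
          omega
        · have := Nat.le_of_dvd (by norm_num) (hp.out.dvd_of_dvd_pow hd)
          omega
      · have := Nat.le_of_dvd (by norm_num) hd
        omega
    · have := Nat.le_of_dvd (by norm_num) hd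
      omega
  exact (hu.mul_right_eq_zero).mp h

theorem LL_mod (h7 : 7 < p) : ∃ z : ℤ_[p], LL p (xx p) (gg p) = (p : ℤ_[p]) ^ 7 * z := by
  have h2 : p ≠ 2 := by omega
  have h := LL_map (PadicInt.toZModPow (p := p) 7) p (xx p) (gg p)
  have hx : (fun k => PadicInt.toZModPow (p := p) 7 (xx p k)) = (ctx p h2).x :=
    funext fun k => map_xx p h2 k
  have hg : (fun k => PadicInt.toZModPow (p := p) 7 (gg p k)) = (ctx p h2).G :=
    funext fun k => map_gg p h2 k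
  rw [hx, hg] at h
  have h3 := lhs_LL (ctx p h2)
  have h4 : (ctx p h2).p = p := rfl
  rw [h4] at h3
  rw [← h3, lhs_eq, target_zero p h7 h2] at h
  have h5 : LL p (xx p) (gg p) ∈ RingHom.ker (PadicInt.toZModPow (p := p) 7) := h
  rw [PadicInt.ker_toZModPow, Ideal.mem_span_singleton] at h5
  exact h5

theorem padic_id (h7 : 7 < p) : ∃ z : ℤ_[p],
    27 * (p : ℚ_[p]) ^ 3 * ∑ j ∈ range (p - 1), ((2 * (j + 1)).choose (j + 1) : ℚ_[p]) /
        ((j + 1 : ℕ) : ℚ_[p]) ^ 3 +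
      54 * (p : ℚ_[p]) * ∑ j ∈ range (p - 1), 1 / ((j + 1 : ℕ) : ℚ_[p]) +
      13 * (p : ℚ_[p]) ^ 3 * ∑ j ∈ range (p - 1), 1 / ((j + 1 : ℕ) : ℚ_[p]) ^ 3 =
      (p : ℚ_[p]) ^ 7 * (z : ℚ_[p]) := by
  obtain ⟨z, hz⟩ := LL_mod p h7
  refine ⟨z, ?_⟩
  have h := LL_map (PadicInt.Coe.ringHom (p := p)) p (xx p) (gg p)
  have hN : (p - 1) + 1 = p := by omega
  have hex := exact_id (K := ℚ_[p]) (p - 1)
  rw [hN] at hex
  rw [← hex]
  have hx : ∀ k, 1 ≤ k → k < p → PadicInt.Coe.ringHom (p := p) (xx p k) = (p : ℚ_[p]) / k := by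
    intro k h1 hk
    have hk0 : ((k : ℕ) : ℚ_[p]) ≠ 0 := by
      have : k ≠ 0 := by omega
      exact_mod_cast this
    have e := congrArg (PadicInt.Coe.ringHom (p := p)) (ii_mul p k h1 hk)
    rw [map_mul, map_one, map_natCast] at e
    unfold xx
    rw [map_mul, map_natCast, eq_div_iff hk0]
    linear_combination (p : ℚ_[p]) * e
  have hg : ∀ k, 1 ≤ k → k < p →
      PadicInt.Coe.ringHom (p := p) (gg p k) = (1 - (p : ℚ_[p]) / k)⁻¹ := by
    intro k h1 hk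
    have e := congrArg (PadicInt.Coe.ringHom (p := p)) (gg_mul p k)
    rw [map_mul, map_one, map_sub, map_one, hx k h1 hk] at e
    exact eq_inv_of_mul_eq_one_right e
  rw [LL_congr p _ _ _ _ hx hg] at h
  rw [← h, hz, map_mul, map_pow, map_natCast]
  rfl

end

theorem main (p : ℕ) (hp : p.Prime) (h7 : 7 < p) :
    ∃ a b : ℤ, ¬ (p : ℤ) ∣ b ∧
      ((∑ k ∈ Icc 1 (p - 1), ((2 * k).choose k : ℚ) / (k : ℚ) ^ 3) -
        (-2 * (∑ k ∈ Icc 1 (p - 1), 1 / (k : ℚ)) / (p : ℚ) ^ 2 -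
          13 / 27 * ∑ k ∈ Icc 1 (p - 1), 1 / (k : ℚ) ^ 3)) * b = (p : ℚ) ^ 4 * a := by
  have : Fact p.Prime := ⟨hp⟩
  obtain ⟨z, hz⟩ := padic_id p h7
  set q : ℚ := (∑ k ∈ Icc 1 (p - 1), ((2 * k).choose k : ℚ) / (k : ℚ) ^ 3) -
        (-2 * (∑ k ∈ Icc 1 (p - 1), 1 / (k : ℚ)) / (p : ℚ) ^ 2 -
          13 / 27 * ∑ k ∈ Icc 1 (p - 1), 1 / (k : ℚ) ^ 3) with hq
  have hp0 : (p : ℚ_[p]) ≠ 0 := by
    have : p ≠ 0 := by omega
    exact_mod_cast this
  have hq2 : 27 * (q : ℚ_[p]) = (p : ℚ_[p]) ^ 4 * (z : ℚ_[p]) := by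
    rw [hq, sum_Icc, sum_Icc, sum_Icc]
    push_cast
    apply mul_left_cancel₀ (pow_ne_zero 3 hp0)
    push_cast at hz
    have : (p : ℚ_[p]) ^ 3 * ((p : ℚ_[p]) ^ 4 * (z : ℚ_[p])) = (p : ℚ_[p]) ^ 7 * (z : ℚ_[p]) := by
      ring
    rw [this, ← hz]
    field_simp
    ring
  have hden : (q : ℚ_[p]) * (q.den : ℚ_[p]) = (q.num : ℚ_[p]) := by
    have := Rat.mul_den_eq_num q
    exact_mod_cast congrArg (fun r : ℚ => (r : ℚ_[p])) this
  have hnum : ((27 * q.num : ℤ) : ℤ_[p]) = (p : ℤ_[p]) ^ 4 * (z * (q.den : ℤ_[p])) := by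
    have h : (((27 * q.num : ℤ) : ℤ_[p]) : ℚ_[p]) =
        (((p : ℤ_[p]) ^ 4 * (z * (q.den : ℤ_[p])) : ℤ_[p]) : ℚ_[p]) := by
      have h27 : ((27 : ℤ_[p]) : ℚ_[p]) = 27 := map_ofNat (PadicInt.Coe.ringHom (p := p)) 27
      push_cast
      rw [← hden, h27]
      linear_combination (q.den : ℚ_[p]) * hq2
    exact Subtype.coe_injective h
  have hdvd : ((p ^ 4 : ℕ) : ℤ) ∣ 27 * q.num := by
    have h1 : (p : ℤ_[p]) ^ 4 ∣ ((27 * q.num : ℤ) : ℤ_[p]) := ⟨_, hnum⟩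
    have h2 := (PadicInt.norm_int_le_pow_iff_dvd (p := p) (k := 27 * q.num) (n := 4)).mp
      ((PadicInt.norm_le_pow_iff_mem_span_pow _ 4).mpr (Ideal.mem_span_singleton.mpr h1))
    exact_mod_cast h2
  have hcop : IsCoprime ((p ^ 4 : ℕ) : ℤ) 27 := by
    have : Nat.Coprime (p ^ 4) 27 := by
      apply Nat.Coprime.pow_left
      rw [Nat.Prime.coprime_iff_not_dvd hp]
      intro h
      have h3 : p ∣ 3 ^ 3 := by norm_num; exact h
      have := Nat.le_of_dvd (by norm_num) (hp.dvd_of_dvd_pow h3)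
      omega
    exact_mod_cast Nat.isCoprime_iff_coprime.mpr this
  have hd4 := hcop.dvd_of_dvd_mul_left hdvd
  obtain ⟨a, ha⟩ := hd4
  refine ⟨a, q.den, ?_, ?_⟩
  · intro hd
    have h1 : (p : ℤ) ∣ q.num := by
      rw [ha]
      exact Dvd.dvd.mul_right (by push_cast; exact dvd_pow_self _ (by norm_num)) _
    have h2 : p ∣ q.num.natAbs := Int.natCast_dvd.mp h1
    have h3 : p ∣ q.den := Int.natCast_dvd_natCast.mp hd
    have h4 := Nat.dvd_gcd h2 h3
    rw [q.reduced] at h4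
    exact hp.one_lt.ne' (Nat.dvd_one.mp h4)
  · have := Rat.mul_den_eq_num q
    push_cast
    rw [this, ha]
    push_cast
    ring

end Pool.Agent.H97.Sun
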