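import Pool.Agent.H97.Sun.Stuffle

namespace Pool.Agent.H97.Sun

open Finset

variable {R : Type} [CommRing R]

theorem okI_cons (x : ℤ) (w : List ℤ) : okI (x :: w) = true ↔
    (x = 0 ∨ x = 1 ∨ x = -1) ∧ okI w = true ∧ (x = 0 → w ≠ []) := by
  cases w with
  | nil =>
    simp only [okI, Bool.or_eq_true, beq_iff_eq, ne_eq, not_true_eq_false, imp_false, true_and]
    constructor
    · rintro (h | h)
      · subst h; decide
      · subst h; decide
    · rintro ⟨h, h0⟩
      rcases h with h | h
      · exact absurd h h0
      · exact h
  | cons y w =>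
    simp only [okI, Bool.or_eq_true, beq_iff_eq, ne_eq, Bool.and_eq_true, reduceCtorEq,
      not_false_eq_true, implies_true, and_true, or_assoc]

theorem fi_ne_nil (w : List ℤ) (hw : okI w = true) (h : w ≠ []) : fi w ≠ [] := by
  induction w with
  | nil => exact absurd rfl h
  | cons x w ih =>
    obtain ⟨-, h1, h2⟩ := (okI_cons x w).mp hw
    unfold fi
    split_ifs with hx
    · have h3 := ih h1 (h2 hx)
      cases hfi : fi w with
      | nil => exact absurd hfi h3
      | cons a L => simp [bump]
    · simp

theorem fi_letters (w : List ℤ) (hw : okI w = true) : ∀ a ∈ fi w, a ≠ 0 := by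
  induction w with
  | nil => simp [fi]
  | cons x w ih =>
    obtain ⟨h0, h1, h2⟩ := (okI_cons x w).mp hw
    have ih' := ih h1
    intro a ha
    unfold fi at ha
    split_ifs at ha with hx
    · cases hfi : fi w with
      | nil => rw [hfi] at ha; simp [bump] at ha
      | cons b L =>
        rw [hfi] at ha ih'
        simp only [bump, List.mem_cons] at ha
        rcases ha with ha | ha
        · split_ifs at ha <;> omega
        · exact ih' a (List.mem_cons_of_mem _ ha)
    · cases hfi : fi w with
      | nil =>
        rw [hfi] at ha
        simp only [twist, List.mem_cons, List.not_mem_nil, or_false] at ha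
        rw [ha]; exact hx
      | cons b L =>
        rw [hfi] at ha ih'
        simp only [twist, List.mem_cons] at ha
        rcases ha with ha | ha | ha
        · rw [ha]; exact hx
        · rw [ha]; exact mul_ne_zero hx (ih' b (List.mem_cons_self))
        · exact ih' a (List.mem_cons_of_mem _ ha)

theorem sum_T' (f : ℤ → ℕ → R) (L : List ℤ) (n : ℕ) :
    ∑ i ∈ range (n + 1), T f L i = A f L n := by
  cases L with
  | nil => simp [T, A]
  | cons a L =>
    rw [Finset.sum_range_succ']
    simp [T, A]

theorem T_twist (C : Ctx R) (x : ℤ) (hx : x = 1 ∨ x = -1) (L : List ℤ) (hL : ∀ a ∈ L, a ≠ 0)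
    (j : ℕ) : T C.fl (twist x L) j = (x : R) ^ j * T C.fl L j := by
  cases L with
  | nil =>
    simp only [twist, T]
    split_ifs with h
    · subst h; simp
    · simp
  | cons b L =>
    simp only [twist, T]
    split_ifs with h
    · simp
    · rw [← mul_assoc]
      congr 1
      have hb := hL b List.mem_cons_self
      rcases hx with hx | hx
      · subst hx; simp
      · subst hx
        unfold Ctx.fl
        have e1 : (-1 * b).natAbs = b.natAbs := by omega
        rw [e1]
        have e2 : ((-1 : R) ^ j) * (-1) ^ j = 1 := by
          rw [← mul_pow]; simp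
        by_cases hb0 : b < 0
        · have : ¬ (-1 * b < 0) := by omega
          rw [if_neg this, if_pos hb0]
          push_cast
          linear_combination (-(C.p : R) ^ b.natAbs * C.I j ^ b.natAbs) * e2
        · have : -1 * b < 0 := by omega
          rw [if_pos this, if_neg hb0]
          push_cast
          ring

theorem fl_bump (C : Ctx R) (a : ℤ) (m : ℕ) :
    C.fl (if a < 0 then a - 1 else a + 1) m = (C.p : R) * C.I m * C.fl a m := by
  unfold Ctx.fl
  by_cases h : a < 0
  · rw [if_pos h, if_pos h, if_pos (show a - 1 < 0 by omega),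
      show (a - 1).natAbs = a.natAbs + 1 by omega]
    ring
  · rw [if_neg h, if_neg h, if_neg (show ¬ (a + 1 < 0) by omega),
      show (a + 1).natAbs = a.natAbs + 1 by omega]
    ring

/-- The coefficient sequence of a valid integral word is the term sequence of its nested sum. -/
theorem c_eq_T (C : Ctx R) (w : List ℤ) (hw : okI w = true) (m : ℕ) :
    C.c w m = T C.fl (fi w) m := by
  induction w generalizing m with
  | nil => rfl
  | cons x w ih =>
    obtain ⟨h0, h1, h2⟩ := (okI_cons x w).mp hw
    have hfl := fi_letters w h1
    by_cases hx : x = 0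
    · have h3 := fi_ne_nil w h1 (h2 hx)
      simp only [Ctx.c, fi, if_pos hx]
      rw [ih h1]
      cases hfi : fi w with
      | nil => exact absurd hfi h3
      | cons a L =>
        simp only [bump, T]
        split_ifs with hm ha
        · simp
        · rw [← mul_assoc]
          congr 1
          rw [← fl_bump, if_pos ha]
        · rw [← mul_assoc]
          congr 1
          rw [← fl_bump, if_neg ha]
    · have hx' : x = 1 ∨ x = -1 := by tauto
      simp only [Ctx.c, fi, if_neg hx, T]
      rcases m with _ | m
      · simp
      · rw [if_neg (Nat.succ_ne_zero m), Nat.add_sub_cancel, ← sum_T', Finset.mul_sum,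
          Finset.mul_sum]
        refine sum_congr rfl fun j hj => ?_
        rw [mem_range] at hj
        rw [T_twist C x hx' _ hfl, ih h1]
        have e1 : C.fl x (m + 1) = (C.p : R) * C.I (m + 1) * (x : R) ^ (m + 1) := by
          unfold Ctx.fl
          rcases hx' with hx' | hx'
          · subst hx'; simp
          · subst hx'; simp
        have e2 : (x : R) ^ (m + 1) * (x : R) ^ j = (x : R) ^ (m + 1 - j) := by
          have e3 : (x : R) ^ j * (x : R) ^ j = 1 := by
            rw [← mul_pow]
            rcases hx' with hx' | hx'
            · subst hx'; simp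
            · subst hx'; simp
          have e4 : (x : R) ^ (m + 1) = (x : R) ^ (m + 1 - j) * (x : R) ^ j := by
            rw [← pow_add]; congr 1; omega
          rw [e4, mul_assoc, e3, mul_one]
        rw [e1, ← e2]
        ring

theorem sh_cons_cons (a b : ℤ) (L M : List ℤ) :
    sh (a :: L) (b :: M) = (sh L (b :: M)).map (List.cons a) ++
      (sh (a :: L) M).map (List.cons b) := rfl

theorem sh_nil_left (M : List ℤ) : sh [] M = [M] := rfl

theorem sh_nil_right (L : List ℤ) : sh L [] = [L] := by
  cases L <;> rfl

theorem sh_length (u v : List ℤ) : ∀ w ∈ sh u v, w.length = u.length + v.length := by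
  induction u generalizing v with
  | nil => intro w hw; rw [sh_nil_left] at hw; simp at hw; simp [hw]
  | cons a u ihu =>
    induction v with
    | nil => intro w hw; rw [sh_nil_right] at hw; simp at hw; simp [hw]
    | cons b v ihv =>
      intro w hw
      rw [sh_cons_cons, List.mem_append, List.mem_map, List.mem_map] at hw
      rcases hw with ⟨w', hw', rfl⟩ | ⟨w', hw', rfl⟩
      · rw [List.length_cons, ihu _ w' hw']; simp; omega
      · rw [List.length_cons, ihv w' hw']; simp; omega

theorem sh_okI (u v : List ℤ) (hu : okI u = true) (hv : okI v = true) :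
    ∀ w ∈ sh u v, okI w = true := by
  induction u generalizing v with
  | nil => intro w hw; rw [sh_nil_left] at hw; simp at hw; rw [hw]; exact hv
  | cons a u ihu =>
    induction v with
    | nil => intro w hw; rw [sh_nil_right] at hw; simp at hw; rw [hw]; exact hu
    | cons b v ihv =>
      intro w hw
      rw [sh_cons_cons, List.mem_append, List.mem_map, List.mem_map] at hw
      obtain ⟨a0, a1, a2⟩ := (okI_cons a u).mp hu
      obtain ⟨b0, b1, b2⟩ := (okI_cons b v).mp hv
      rcases hw with ⟨w', hw', rfl⟩ | ⟨w', hw', rfl⟩
      · rw [okI_cons]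
        refine ⟨a0, ihu _ a1 hv w' hw', fun _ h => ?_⟩
        have := sh_length _ _ w' hw'
        rw [h] at this
        simp only [List.length_nil, List.length_cons] at this
        omega
      · rw [okI_cons]
        refine ⟨b0, ihv b1 w' hw', fun _ h => ?_⟩
        have := sh_length _ _ w' hw'
        rw [h] at this
        simp only [List.length_nil, List.length_cons] at this
        omega

/-- Convolution. -/
def conv (a b : ℕ → R) (m : ℕ) : R := ∑ x ∈ antidiagonal m, a x.1 * b x.2

theorem mk_conv (a b : ℕ → R) : PowerSeries.mk (conv a b) = PowerSeries.mk a * PowerSeries.mk b := by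
  ext m
  simp [PowerSeries.coeff_mul, conv]

theorem conv_eq_coeff (a b : ℕ → R) (m : ℕ) :
    conv a b m = PowerSeries.coeff m (PowerSeries.mk a * PowerSeries.mk b) := by
  rw [← mk_conv, PowerSeries.coeff_mk]

theorem conv_assoc (a b c : ℕ → R) (m : ℕ) : conv (conv a b) c m = conv a (conv b c) m := by
  rw [conv_eq_coeff, conv_eq_coeff, mk_conv, mk_conv, mul_assoc]

theorem conv_left_comm (a b c : ℕ → R) (m : ℕ) : conv a (conv b c) m = conv b (conv a c) m := by
  rw [conv_eq_coeff, conv_eq_coeff, mk_conv, mk_conv, mul_left_comm]

theorem conv_congr {a b b' : ℕ → R} {m : ℕ} (h : ∀ i ≤ m, b i = b' i) :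
    conv a b m = conv a b' m := by
  refine sum_congr rfl fun x hx => ?_
  rw [Finset.HasAntidiagonal.mem_antidiagonal] at hx
  rw [h x.2 (by omega)]

theorem conv_congr_left {a a' b : ℕ → R} {m : ℕ} (h : ∀ i ≤ m, a i = a' i) :
    conv a b m = conv a' b m := by
  refine sum_congr rfl fun x hx => ?_
  rw [Finset.HasAntidiagonal.mem_antidiagonal] at hx
  rw [h x.1 (by omega)]

theorem conv_list_sum (a : ℕ → R) {α : Type} (l : List α) (F : α → ℕ → R) (m : ℕ) :
    conv a (fun i => (l.map fun w => F w i).sum) m = (l.map fun w => conv a (F w) m).sum := by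
  induction l with
  | nil => simp [conv]
  | cons x l ih =>
    rw [List.map_cons, List.sum_cons, ← ih]
    unfold conv
    rw [← Finset.sum_add_distrib]
    refine sum_congr rfl fun y _ => ?_
    simp only [List.map_cons, List.sum_cons]
    ring

/-- The kernel of a letter. -/
def ker (x : ℤ) (i : ℕ) : R := if x = 0 then (if i = 0 then 1 else 0) else
  (if i = 0 then 0 else (x : R) ^ i)

theorem c_cons (C : Ctx R) (x : ℤ) (w : List ℤ) (m : ℕ) :
    C.c (x :: w) m = (C.p : R) * C.I m * conv (ker x) (C.c w) m := by
  simp only [Ctx.c]
  congr 1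
  unfold conv ker
  by_cases hx : x = 0
  · simp only [if_pos hx]
    rw [Finset.Nat.sum_antidiagonal_eq_sum_range_succ (fun i j => (if i = 0 then (1 : R) else 0) * C.c w j)]
    rw [Finset.sum_eq_single 0]
    · simp
    · intro b _ hb; simp [hb]
    · intro h; simp at h
  · simp only [if_neg hx]
    rw [Finset.Nat.sum_antidiagonal_eq_sum_range_succ (fun i j => (if i = 0 then (0 : R) else (x : R) ^ i) * C.c w j)]
    rw [← Finset.sum_range_reflect (fun j => (x : R) ^ (m - j) * C.c w j) m,
      Finset.sum_range_succ']
    simp only [if_true, zero_mul, add_zero]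
    refine sum_congr rfl fun j hj => ?_
    rw [mem_range] at hj
    rw [if_neg (Nat.succ_ne_zero j)]
    congr 2 <;> omega

theorem c_zero (C : Ctx R) (w : List ℤ) (h : w ≠ []) : C.c w 0 = 0 := by
  cases w with
  | nil => exact absurd rfl h
  | cons x w => simp [Ctx.c, C.hI0]

theorem mul_c (C : Ctx R) (x : ℤ) (w : List ℤ) (h : okI (x :: w) = true) (i : ℕ) (hi : i < C.p) :
    (i : R) * C.c (x :: w) i = (C.p : R) * conv (ker x) (C.c w) i := by
  rw [c_cons]
  by_cases h0 : i = 0
  · subst h0
    obtain ⟨-, -, h2⟩ := (okI_cons x w).mp h
    unfold conv ker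
    by_cases hx : x = 0
    · have := c_zero C w (h2 hx)
      simp [this]
    · simp [hx]
  · have := C.hI i (by omega) hi
    linear_combination ((C.p : R) * conv (ker x) (C.c w) i) * this

/-- The shuffle product, coefficientwise below `p`. -/
theorem sh_sound (C : Ctx R) (u v : List ℤ) (hu : okI u = true) (hv : okI v = true)
    (m : ℕ) (hm : m < C.p) :
    ∑ x ∈ antidiagonal m, C.c u x.1 * C.c v x.2 = ((sh u v).map fun w => C.c w m).sum := by
  induction u generalizing v m with
  | nil =>
    rw [sh_nil_left]
    rw [Finset.Nat.sum_antidiagonal_eq_sum_range_succ (fun i j => C.c [] i * C.c v j),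
      Finset.sum_eq_single 0]
    · simp [Ctx.c]
    · intro b _ hb; simp [Ctx.c, hb]
    · intro h; simp at h
  | cons a u ihu =>
    induction v generalizing m with
    | nil =>
      rw [sh_nil_right]
      rw [Finset.Nat.sum_antidiagonal_eq_sum_range_succ (fun i j => C.c (a :: u) i * C.c [] j),
        Finset.sum_eq_single m]
      · simp [Ctx.c]
      · intro b hb hbm
        rw [mem_range] at hb
        have : m - b ≠ 0 := by omega
        simp [Ctx.c, this]
      · intro h; simp at h
    | cons b v ihv =>
      obtain ⟨a0, a1, a2⟩ := (okI_cons a u).mp hu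
      obtain ⟨b0, b1, b2⟩ := (okI_cons b v).mp hv
      rw [sh_cons_cons, List.map_append, List.sum_append, List.map_map, List.map_map]
      have e1 : ((sh u (b :: v)).map ((fun w => C.c w m) ∘ List.cons a)).sum =
          (C.p : R) * C.I m * conv (ker a) (conv (C.c u) (C.c (b :: v))) m := by
        have : conv (ker a) (conv (C.c u) (C.c (b :: v))) m =
            conv (ker a) (fun i => ((sh u (b :: v)).map fun w => C.c w i).sum) m :=
          conv_congr fun i hi => ihu (b :: v) a1 hv i (by omega)
        rw [this, conv_list_sum, ← List.sum_map_mul_left]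
        congr 1
        refine List.map_congr_left fun w _ => ?_
        exact c_cons C a w m
      have e2 : ((sh (a :: u) v).map ((fun w => C.c w m) ∘ List.cons b)).sum =
          (C.p : R) * C.I m * conv (ker b) (conv (C.c (a :: u)) (C.c v)) m := by
        have : conv (ker b) (conv (C.c (a :: u)) (C.c v)) m =
            conv (ker b) (fun i => ((sh (a :: u) v).map fun w => C.c w i).sum) m :=
          conv_congr fun i hi => ihv b1 i (by omega)
        rw [this, conv_list_sum, ← List.sum_map_mul_left]
        congr 1
        refine List.map_congr_left fun w _ => ?_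
        exact c_cons C b w m
      rw [e1, e2]
      by_cases h0 : m = 0
      · subst h0
        simp [C.hI0, c_zero]
      have hI := C.hI m (by omega) hm
      have key : (m : R) * ∑ x ∈ antidiagonal m, C.c (a :: u) x.1 * C.c (b :: v) x.2 =
          (C.p : R) * conv (ker a) (conv (C.c u) (C.c (b :: v))) m +
            (C.p : R) * conv (ker b) (conv (C.c (a :: u)) (C.c v)) m := by
        rw [← conv_assoc, conv_left_comm (ker b)]
        unfold conv
        rw [Finset.mul_sum, Finset.mul_sum, Finset.mul_sum, ← Finset.sum_add_distrib]
        refine sum_congr rfl fun x hx => ?_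
        rw [Finset.HasAntidiagonal.mem_antidiagonal] at hx
        have h1 := mul_c C a u hu x.1 (by omega)
        have h2 := mul_c C b v hv x.2 (by omega)
        have h3 : (m : R) = (x.1 : R) + x.2 := by rw [← hx]; push_cast; ring
        unfold conv at h1 h2
        rw [h3]
        linear_combination C.c (b :: v) x.2 * h1 + C.c (a :: u) x.1 * h2
      generalize (∑ x ∈ antidiagonal m, C.c (a :: u) x.1 * C.c (b :: v) x.2) = Z at key ⊢
      linear_combination C.I m * key - Z * hI

end Pool.Agent.H97.Sun
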