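import Pool.Agent.H97.Sun.Defs

namespace Pool.Agent.H97.Sun

open Finset

variable {R : Type} [CommRing R]

theorem A_cons_succ (f : ℤ → ℕ → R) (a : ℤ) (L : List ℤ) (n : ℕ) :
    A f (a :: L) (n + 1) = A f (a :: L) n + f a (n + 1) * A f L n := by
  simp only [A, sum_range_succ]

theorem A_cons_zero (f : ℤ → ℕ → R) (a : ℤ) (L : List ℤ) : A f (a :: L) 0 = 0 := by
  simp [A]

theorem sum_map_cons_zero (f : ℤ → ℕ → R) (a : ℤ) (l : List (List ℤ)) :
    ((l.map (List.cons a)).map fun w => A f w 0).sum = 0 := by
  induction l with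
  | nil => simp
  | cons x l ih =>
    simp only [List.map_cons, List.sum_cons]
    rw [ih, A_cons_zero, add_zero]

theorem sum_map_cons_succ (f : ℤ → ℕ → R) (a : ℤ) (l : List (List ℤ)) (n : ℕ) :
    ((l.map (List.cons a)).map fun w => A f w (n + 1)).sum =
      ((l.map (List.cons a)).map fun w => A f w n).sum +
        f a (n + 1) * (l.map fun w => A f w n).sum := by
  induction l with
  | nil => simp
  | cons x l ih =>
    simp only [List.map_cons, List.sum_cons]
    rw [ih, A_cons_succ]
    ring

theorem st_cons_cons (a b : ℤ) (L M : List ℤ) :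
    st (a :: L) (b :: M) = (st L (b :: M)).map (List.cons a) ++
      ((st (a :: L) M).map (List.cons b) ++ (st L M).map (List.cons (dm a b))) := rfl

theorem st_nil_left (M : List ℤ) : st [] M = [M] := rfl

theorem st_nil_right (L : List ℤ) : st L [] = [L] := by
  cases L <;> rfl

/-- The product of two nested sums is the sum over the stuffle product. -/
theorem st_sound (f : ℤ → ℕ → R) (hf : ∀ a b k, f a k * f b k = f (dm a b) k) :
    ∀ (n : ℕ) (L M : List ℤ), A f L n * A f M n = ((st L M).map fun w => A f w n).sum := by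
  intro n
  induction n with
  | zero =>
    intro L M
    cases L with
    | nil => simp [st_nil_left, A]
    | cons a L =>
      cases M with
      | nil => simp [st_nil_right, A]
      | cons b M =>
        rw [st_cons_cons, List.map_append, List.map_append, List.sum_append, List.sum_append,
          sum_map_cons_zero, sum_map_cons_zero, sum_map_cons_zero, A_cons_zero]
        ring
  | succ n ih =>
    intro L M
    cases L with
    | nil => simp [st_nil_left, A]
    | cons a L =>
      cases M with
      | nil => simp [st_nil_right, A]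
      | cons b M =>
        have key := ih (a :: L) (b :: M)
        rw [st_cons_cons, List.map_append, List.map_append, List.sum_append, List.sum_append] at key
        rw [st_cons_cons, List.map_append, List.map_append, List.sum_append, List.sum_append,
          sum_map_cons_succ, sum_map_cons_succ, sum_map_cons_succ, ← ih L (b :: M),
          ← ih (a :: L) M, ← ih L M, A_cons_succ, A_cons_succ, ← hf a b]
        linear_combination key

theorem Ctx.fl_dm (C : Ctx R) (a b : ℤ) (k : ℕ) : C.fl a k * C.fl b k = C.fl (dm a b) k := by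
  unfold Ctx.fl dm
  by_cases ha : a < 0 <;> by_cases hb : b < 0
  · have h1 : ¬ (((a.natAbs + b.natAbs : ℕ) : ℤ) < 0) := by omega
    simp only [ha, hb, if_true, h1, if_false, Int.natAbs_natCast]
    have : ((-1 : R) ^ k) * (-1) ^ k = 1 := by
      rw [← mul_pow]; simp
    rw [pow_add, pow_add]
    linear_combination (C.p : R) ^ a.natAbs * C.I k ^ a.natAbs * ((C.p : R) ^ b.natAbs * C.I k ^ b.natAbs) * this
  · have h1 : -((a.natAbs + b.natAbs : ℕ) : ℤ) < 0 := by omega
    simp only [ha, hb, if_true, if_false, Int.natAbs_neg, Int.natAbs_natCast, pow_add,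
      eq_iff_iff, iff_false, not_true_eq_false, h1]
    ring
  · have h1 : -((a.natAbs + b.natAbs : ℕ) : ℤ) < 0 := by omega
    simp only [ha, hb, if_true, if_false, Int.natAbs_neg, Int.natAbs_natCast, pow_add,
      eq_iff_iff, iff_true, h1]
    ring
  · have h1 : ¬ (((a.natAbs + b.natAbs : ℕ) : ℤ) < 0) := by omega
    simp only [ha, hb, h1, if_false, Int.natAbs_natCast, if_true, pow_add]
    ring

/-! ### The weight factor -/

theorem B_fl_eq (C : Ctx R) (L : List ℤ) (g : ℕ → R) (n : ℕ) :
    ∃ y : R, B C.fl L g n = (C.p : R) ^ wt L * y := by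
  induction L generalizing n with
  | nil => exact ⟨g n, by simp [B, wt]⟩
  | cons a L ih =>
    choose y hy using ih
    refine ⟨∑ k ∈ range n, C.I (k + 1) ^ a.natAbs * (if a < 0 then (-1) ^ (k + 1) else 1) * y k, ?_⟩
    have hw : wt (a :: L) = a.natAbs + wt L := by simp [wt]
    rw [B, hw, pow_add, Finset.mul_sum]
    refine sum_congr rfl fun k _ => ?_
    rw [hy k]
    unfold Ctx.fl
    ring

theorem A_eq_B (f : ℤ → ℕ → R) (L : List ℤ) (n : ℕ) : A f L n = B f L (fun _ => 1) n := by
  induction L generalizing n with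
  | nil => rfl
  | cons a L ih => simp only [A, B, ih]

theorem A_append (f : ℤ → ℕ → R) (L M : List ℤ) (n : ℕ) :
    A f (L ++ M) n = B f L (A f M) n := by
  induction L generalizing n with
  | nil => rfl
  | cons a L ih => simp only [List.cons_append, A, B, ih]

theorem B_append (f : ℤ → ℕ → R) (L M : List ℤ) (g : ℕ → R) (n : ℕ) :
    B f (L ++ M) g n = B f L (B f M g) n := by
  induction L generalizing n with
  | nil => rfl
  | cons a L ih => simp only [List.cons_append, B, ih]

theorem Ctx.pow_eq_zero (C : Ctx R) {m : ℕ} (hm : 7 ≤ m) : (C.p : R) ^ m = 0 := by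
  obtain ⟨d, rfl⟩ := Nat.exists_eq_add_of_le hm
  rw [pow_add, C.hnil, zero_mul]

theorem B_fl_zero (C : Ctx R) (L : List ℤ) (g : ℕ → R) (n : ℕ) (h : 7 ≤ wt L) :
    B C.fl L g n = 0 := by
  obtain ⟨y, hy⟩ := B_fl_eq C L g n
  rw [hy, C.pow_eq_zero h, zero_mul]

theorem A_fl_zero (C : Ctx R) (L : List ℤ) (n : ℕ) (h : 7 ≤ wt L) : A C.fl L n = 0 := by
  rw [A_eq_B]; exact B_fl_zero C L _ n h

/-! ### Evaluation of combinations -/

theorem ev_nil (g : List ℤ → R) : ev g [] = 0 := by simp [ev]

theorem ev_cons (g : List ℤ → R) (x : ℤ × List ℤ) (c : Comb) :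
    ev g (x :: c) = (x.1 : R) * g x.2 + ev g c := by simp [ev]

theorem ev_append (g : List ℤ → R) (c d : Comb) : ev g (c ++ d) = ev g c + ev g d := by
  simp [ev]

theorem ev_smulC (g : List ℤ → R) (n : ℤ) (c : Comb) : ev g (smulC n c) = (n : R) * ev g c := by
  induction c with
  | nil => simp [smulC, ev]
  | cons x c ih =>
    have h : smulC n (x :: c) = (n * x.1, x.2) :: smulC n c := rfl
    rw [h, ev_cons, ih, ev_cons]
    push_cast
    ring

theorem ev_trunc (g : List ℤ → R) (hg : ∀ w, 7 ≤ wt w → g w = 0) (c : Comb) :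
    ev g (trunc c) = ev g c := by
  induction c with
  | nil => rfl
  | cons x c ih =>
    unfold trunc at ih ⊢
    rw [List.filter_cons]
    split_ifs with h
    · rw [ev_cons, ev_cons, ih]
    · rw [ev_cons, ih, hg x.2 (by simp at h; omega)]
      ring

theorem ev_map_one (g : List ℤ → R) (n : ℤ) (l : List (List ℤ)) :
    ev g (l.map fun u => (n, u)) = (n : R) * (l.map g).sum := by
  induction l with
  | nil => simp [ev]
  | cons x l ih =>
    rw [List.map_cons, ev_cons, ih, List.map_cons, List.sum_cons]
    ring

theorem ev_flatMap {α : Type} (g : List ℤ → R) (l : List α) (F : α → Comb) :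
    ev g (l.flatMap F) = (l.map fun x => ev g (F x)).sum := by
  induction l with
  | nil => simp [ev]
  | cons x l ih => rw [List.flatMap_cons, ev_append, ih, List.map_cons, List.sum_cons]

theorem val_zero (C : Ctx R) (w : List ℤ) (h : 7 ≤ wt w) : C.val w = 0 := A_fl_zero C w _ h

theorem ev_mulC (C : Ctx R) (w : List ℤ) (c : Comb) :
    ev C.val (mulC w c) = C.val w * ev C.val c := by
  unfold mulC
  rw [ev_trunc _ (val_zero C), ev_flatMap]
  induction c with
  | nil => simp [ev]
  | cons x c ih =>
    rw [List.map_cons, List.sum_cons, ih, ev_map_one, ev_cons]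
    have := st_sound C.fl C.fl_dm (C.p - 1) w x.2
    have h2 : (List.map C.val (st w x.2)).sum = C.val w * C.val x.2 := by
      unfold Ctx.val
      rw [this]
    rw [h2]
    ring

end Pool.Agent.H97.Sun
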